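import Pool.Agent.D0H39.NL.Bas

set_option autoImplicit false
set_option maxHeartbeats 400000

open Set Filter Topology Metric Function
open scoped ContDiff RealInnerProductSpace

noncomputable section

namespace Pool.Agent.D0H39.NL

variable {n : ℕ}

theorem exists_proj (A : E n →L[ℝ] E n × E n) :
    ∃ P : E n →L[ℝ] E n, IsProj P ∧ ∀ k, P k = k ↔ ∃ v, A v = (0, k) := by
  let K : Submodule ℝ (E n) :=
    { carrier := {k | ∃ v, A v = (0, k)}
      add_mem' := by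
        rintro a b ⟨v, hv⟩ ⟨w, hw⟩
        exact ⟨v + w, by rw [map_add, hv, hw]; simp⟩
      zero_mem' := ⟨0, by rw [map_zero]; rfl⟩
      smul_mem' := by
        rintro c a ⟨v, hv⟩
        exact ⟨c • v, by rw [map_smul, hv]; simp⟩ }
  refine ⟨K.starProjection, ⟨fun x => ?_, fun x y => ?_⟩, fun k => ?_⟩
  · exact Submodule.starProjection_eq_self_iff.2 (Submodule.starProjection_apply_mem K x)
  · exact Submodule.inner_starProjection_left_eq_right K x y
  · rw [Submodule.starProjection_eq_self_iff]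
    rfl

theorem chi_inj {A : E n →L[ℝ] E n × E n} (hA : ∀ v, A v = 0 → v = 0)
    (hiso : ∀ v w, om (A v) (A w) = 0) {P : E n →L[ℝ] E n} (hP : IsProj P)
    (hPK : ∀ k, P k = k ↔ ∃ v, A v = (0, k)) (v : E n) (hv : chi P (A v) = 0) : v = 0 := by
  have h1 : P (chi P (A v)) = 0 := by rw [hv, map_zero]
  simp only [chi, map_sub, map_add, hP.1, sub_self, zero_add] at h1
  have h2 : P (A v).1 = (A v).1 := by
    simp only [chi, h1, add_zero] at hv
    exact (sub_eq_zero.1 hv).symm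
  obtain ⟨w, hw⟩ := (hPK _).1 h2
  have h3 := hiso v w
  rw [hw] at h3
  simp only [om, inner_zero_right, zero_sub, neg_eq_zero] at h3
  have h4 : (A v).1 = 0 := inner_self_eq_zero.1 h3
  have h5 : A v = (0, (A v).2) := Prod.ext h4 rfl
  have h6 : P (A v).2 = (A v).2 := (hPK _).2 ⟨v, h5⟩
  rw [h1] at h6
  exact hA v (by rw [h5, ← h6]; rfl)

theorem om_mk {P : E n →L[ℝ] E n} (hP : IsProj P) (u u' v v' : E n) :
    om (mk P u u') (mk P v v') = ⟪u', v⟫ - ⟪u, v'⟫ := by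
  have a1 : ∀ x y, ⟪P x, P y⟫ = ⟪P x, y⟫ := fun a b => by rw [← hP.2, hP.1]
  have a2 : ∀ x y, ⟪x, P y⟫ = ⟪P x, y⟫ := fun a b => (hP.2 a b).symm
  have a3 : ∀ x y, ⟪P y, P x⟫ = ⟪P x, y⟫ := fun a b => by rw [real_inner_comm, a1]
  have a4 : ∀ x y, ⟪P y, x⟫ = ⟪P x, y⟫ := fun a b => by rw [real_inner_comm, a2]
  have a5 : ∀ x y, ⟪y, P x⟫ = ⟪P x, y⟫ := fun a b => real_inner_comm _ _
  have a6 : ∀ x y : E n, ⟪y, x⟫ = ⟪x, y⟫ := fun a b => real_inner_comm _ _
  simp only [om, mk, inner_sub_left, inner_sub_right, inner_add_left]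
  linarith [a1 u v, a1 u v', a1 u' v, a1 u' v', a2 u v, a2 u v', a2 u' v, a2 u' v',
    a3 u v, a3 u v', a3 u' v, a3 u' v', a4 u v, a4 u v', a4 u' v, a4 u' v',
    a5 u v, a5 u v', a5 u' v, a5 u' v', a6 u v, a6 u v', a6 u' v, a6 u' v']

/-- the inverse function theorem -/
theorem inverse {h : E n → E n} (hh : ContDiff ℝ ∞ h) (hinj : ∀ v, fderiv ℝ h 0 v = 0 → v = 0) :
    ∃ (G : E n → E n) (ρ : ℝ), 0 < ρ ∧ G (h 0) = 0 ∧ (∀ x ∈ ball (h 0) ρ, ContDiffAt ℝ ∞ G x) ∧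
      (∀ x ∈ ball (h 0) ρ, h (G x) = x) ∧ IsOpen (G '' ball (h 0) ρ) ∧
      ∀ v, fderiv ℝ G (h 0) (fderiv ℝ h 0 v) = v := by
  have hd : ∀ s, HasFDerivAt h (fderiv ℝ h s) s := fun s =>
    (hh.differentiable (by simp)).differentiableAt.hasFDerivAt
  let L : E n ≃ₗ[ℝ] E n := LinearEquiv.ofInjectiveEndo (fderiv ℝ h 0 : E n →ₗ[ℝ] E n) (by
    rw [← LinearMap.ker_eq_bot, LinearMap.ker_eq_bot']
    exact hinj)
  let f' : E n ≃L[ℝ] E n := L.toContinuousLinearEquiv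
  have hf' : (f' : E n →L[ℝ] E n) = fderiv ℝ h 0 := by
    ext1 v
    rfl
  have h0 : HasFDerivAt h (f' : E n →L[ℝ] E n) 0 := by
    rw [hf']
    exact hd 0
  have hc : ContDiffAt ℝ ∞ h 0 := hh.contDiffAt
  let e := hc.toOpenPartialHomeomorph h h0 (by simp)
  have he : ∀ s, e s = h s := fun s => rfl
  have hes : (0 : E n) ∈ e.source := hc.mem_toOpenPartialHomeomorph_source h0 (by simp)
  have het : h 0 ∈ e.target := hc.image_mem_toOpenPartialHomeomorph_target h0 (by simp)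
  have hG0 : e.symm (h 0) = 0 := by
    rw [← he]
    exact e.left_inv hes
  have hcont : Continuous (fderiv ℝ h) := (hh.continuous_fderiv (by simp))
  have hinv : ∀ᶠ s in 𝓝 (0 : E n), fderiv ℝ h s ∈ range ((↑) : (E n ≃L[ℝ] E n) → E n →L[ℝ] E n) := by
    refine hcont.continuousAt.eventually_mem ?_
    rw [← hf']
    exact ContinuousLinearEquiv.nhds f'
  have hGc : ContinuousAt e.symm (h 0) := e.symm.continuousAt het
  have hinv2 : ∀ᶠ x in 𝓝 (h 0), fderiv ℝ h (e.symm x) ∈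
      range ((↑) : (E n ≃L[ℝ] E n) → E n →L[ℝ] E n) := by
    have h1 := hGc.tendsto
    rw [hG0] at h1
    exact h1.eventually hinv
  obtain ⟨ρ, hρ, h1⟩ := Metric.eventually_nhds_iff_ball.1
    (hinv2.and (e.open_target.mem_nhds het))
  refine ⟨e.symm, ρ, hρ, hG0, fun x hx => ?_, fun x hx => e.right_inv (h1 x hx).2, ?_, fun v => ?_⟩
  · obtain ⟨g', hg'⟩ := (h1 x hx).1
    refine e.contDiffAt_symm (h1 x hx).2 (f₀' := g') ?_ hh.contDiffAt
    rw [hg']
    exact hd _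
  · have h2 : ball (h 0) ρ ⊆ e.symm.source := fun x hx => (h1 x hx).2
    exact e.symm.isOpen_image_of_subset_source isOpen_ball h2
  · have h2 : HasFDerivAt e.symm (f'.symm : E n →L[ℝ] E n) (h 0) := by
      have h3 : HasStrictFDerivAt h (f' : E n →L[ℝ] E n) 0 := hc.hasStrictFDerivAt' h0 (by simp)
      exact h3.to_localInverse.hasFDerivAt
    rw [h2.fderiv, ← hf']
    exact f'.symm_apply_apply v

theorem t_CHART : S_CHART := by
  intro n Λ hΛ z hz
  obtain ⟨F, F0, ⟨Fs, -, Fimm⟩, Fiso, Fopen⟩ := hΛ.par z hz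
  obtain ⟨P, hP, hPK⟩ := exists_proj (fderiv ℝ F 0)
  have hFd : ∀ s, HasFDerivAt F (fderiv ℝ F s) s := fun s =>
    (Fs.differentiable (by simp)).differentiableAt.hasFDerivAt
  have hhs : ContDiff ℝ ∞ (fun s => chi P (F s)) := (chiL P).contDiff.comp Fs
  have hhd : ∀ s v, fderiv ℝ (fun s => chi P (F s)) s v = chi P (fderiv ℝ F s v) := by
    intro s v
    have h1 : HasFDerivAt (fun s => chi P (F s)) ((chiL P).comp (fderiv ℝ F s)) s :=
      (chiL P).hasFDerivAt.comp s (hFd s)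
    rw [h1.fderiv]
    rfl
  obtain ⟨G, ρ, hρ, G0, Gs, hG, Gopen, Gd⟩ := inverse hhs (fun v hv => by
    rw [hhd] at hv
    exact chi_inj (Fimm 0) (Fiso 0) hP hPK v hv)
  simp only [F0] at G0 Gs hG Gopen Gd
  have hFΛ : ∀ s, F s ∈ Λ := by
    obtain ⟨U, -, hU⟩ := Fopen univ isOpen_univ
    intro s
    have : F s ∈ F '' univ := mem_image_of_mem F (mem_univ s)
    rw [hU] at this
    exact this.1
  obtain ⟨U, hU, hFU⟩ := Fopen _ Gopen
  have hzU : z ∈ U := by
    have : z ∈ F '' (G '' ball (chi P z) ρ) :=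
      ⟨0, ⟨chi P z, mem_ball_self hρ, G0⟩, F0⟩
    rw [hFU] at this
    exact this.2
  obtain ⟨r, hr, hrU⟩ := Metric.isOpen_iff.1 hU z hzU
  have hW : ∀ x ∈ ball (chi P z) ρ, mk P x (zeta P (F (G x))) = F (G x) := by
    intro x hx
    have h1 := mk_chi_zeta hP (F (G x))
    rw [hG x hx] at h1
    exact h1
  have hηs : ∀ x ∈ ball (chi P z) ρ, ContDiffAt ℝ ∞ (fun x => zeta P (F (G x))) x := by
    intro x hx
    have h1 : ContDiff ℝ ∞ (fun s => zeta P (F s)) := (zetaL P).contDiff.comp Fs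
    exact h1.contDiffAt.comp x (Gs x hx)
  have hGd : ∀ x ∈ ball (chi P z) ρ, HasFDerivAt G (fderiv ℝ G x) x := fun x hx =>
    ((Gs x hx).differentiableAt (by simp)).hasFDerivAt
  have hηd : ∀ x ∈ ball (chi P z) ρ, ∀ u, fderiv ℝ (fun x => zeta P (F (G x))) x u =
      zeta P (fderiv ℝ F (G x) (fderiv ℝ G x u)) := by
    intro x hx u
    have h1 : HasFDerivAt (fun x => F (G x)) ((fderiv ℝ F (G x)).comp (fderiv ℝ G x)) x :=
      (hFd (G x)).comp x (hGd x hx)
    have h2 : HasFDerivAt (fun x => zeta P (F (G x)))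
        ((zetaL P).comp ((fderiv ℝ F (G x)).comp (fderiv ℝ G x))) x :=
      (zetaL P).hasFDerivAt.comp x h1
    rw [h2.fderiv]
    rfl
  have hχd : ∀ x ∈ ball (chi P z) ρ, ∀ u,
      chi P (fderiv ℝ F (G x) (fderiv ℝ G x u)) = u := by
    intro x hx u
    have h1 : HasFDerivAt (fun x => F (G x)) ((fderiv ℝ F (G x)).comp (fderiv ℝ G x)) x :=
      (hFd (G x)).comp x (hGd x hx)
    have h2 : HasFDerivAt (fun x => chi P (F (G x)))
        ((chiL P).comp ((fderiv ℝ F (G x)).comp (fderiv ℝ G x))) x :=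
      (chiL P).hasFDerivAt.comp x h1
    have h3 : HasFDerivAt (fun x => chi P (F (G x))) (ContinuousLinearMap.id ℝ (E n)) x := by
      refine (hasFDerivAt_id x).congr_of_eventuallyEq ?_
      filter_upwards [isOpen_ball.mem_nhds hx] with y hy
      exact hG y hy
    have h4 := h2.unique h3
    exact congrArg (fun T : E n →L[ℝ] E n => T u) h4
  refine ⟨P, fun x => zeta P (F (G x)), ρ, r, hP, hρ, hr, fun x hx => (hηs x hx).contDiffWithinAt,
    ?_, fun x hx => ?_, fun w hw hwz => ?_, fun x hx u v => ?_, fun k hk => ?_⟩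
  · show mk P (chi P z) (zeta P (F (G (chi P z)))) = z
    rw [hW _ (mem_ball_self hρ), G0, F0]
  · show mk P x (zeta P (F (G x))) ∈ Λ
    rw [hW x hx]
    exact hFΛ _
  · have h1 : w ∈ F '' (G '' ball (chi P z) ρ) := by
      rw [hFU]
      exact ⟨hw, hrU (by rw [mem_ball, dist_eq_norm]; exact hwz)⟩
    obtain ⟨_, ⟨x, hx, rfl⟩, rfl⟩ := h1
    have h2 : chi P (F (G x)) = x := hG x hx
    refine ⟨by rw [h2]; exact hx, ?_⟩
    show mk P (chi P (F (G x))) (zeta P (F (G (chi P (F (G x)))))) = F (G x)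
    rw [h2, hW x hx]
  · rw [hηd x hx u, hηd x hx v]
    have h1 := Fiso (G x) (fderiv ℝ G x u) (fderiv ℝ G x v)
    rw [← mk_chi_zeta hP (fderiv ℝ F (G x) (fderiv ℝ G x u)),
      ← mk_chi_zeta hP (fderiv ℝ F (G x) (fderiv ℝ G x v)), om_mk hP, hχd x hx u, hχd x hx v] at h1
    linarith
  · rw [hηd _ (mem_ball_self hρ) k]
    obtain ⟨v, hv⟩ := (hPK k).1 hk
    have h1 := Gd v
    have h2 : fderiv ℝ (fun s => chi P (F s)) 0 v = k := by
      rw [hhd, hv]
      simp [chi, hk]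
    rw [h2] at h1
    rw [h1, G0, hv]
    simp [zeta, hk]

end Pool.Agent.D0H39.NL
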