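import Pool.Agent.D0H39.NL.Stm

/-!
# Exact Lagrangian submanifolds with signs of the vertical tangencies: statements
-/

set_option autoImplicit false

open Set Filter Topology Metric Function
open scoped ContDiff RealInnerProductSpace

noncomputable section

namespace Pool.Agent.D0H39.NL

variable {n : ℕ}

/-- `Λ` has a vertical tangent vector at `z` -/
def IsVertical (Λ : Set (E n × E n)) (z : E n × E n) : Prop :=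
  ∃ a : E n, a ≠ 0 ∧ IsTangent Λ z (0, a)

/-- `B` is a smooth field of symmetric matrices on the torus `ℝⁿ/ℤⁿ` -/
structure IsSymmetricField (B : E n → E n →L[ℝ] E n) : Prop where
  smooth : ContDiff ℝ ∞ B
  per : ∀ q, ∀ k : Fin n → ℤ, B (q + latt k) = B q
  symm : ∀ q v w, ⟪B q v, w⟫ = ⟪v, B q w⟫

/-- The vertical tangencies of `Λ` have signs with respect to `B`: there is a locally constant
function `σ = ±1` on the set of the vertical tangencies such that near every vertical tangency `z`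
the tangent vectors `a` of `Λ` satisfy `σ(z) ⟪dq(a), B dp(a)⟫ ≥ -C ‖dq(a)‖²` and
`‖dp(a)‖ ≤ C (‖B dp(a)‖ + ‖dq(a)‖)`. -/
def HasSigns (Λ : Set (E n × E n)) (B : E n → E n →L[ℝ] E n) : Prop :=
  ∃ σ : E n × E n → ℝ, (∀ z, ∀ k : Fin n → ℤ, σ (z.1 + latt k, z.2) = σ z) ∧
    (∀ z, σ z = 1 ∨ σ z = -1) ∧
    ∀ z ∈ Λ, IsVertical Λ z → ∃ C r : ℝ, 0 < r ∧ ∀ w ∈ Λ, ‖w - z‖ < r →
      (IsVertical Λ w → σ w = σ z) ∧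
      ∀ a, IsTangent Λ w a → -C * ‖a.1‖ ^ 2 ≤ σ z * ⟪a.1, B w.1 a.2⟫ ∧
        ‖a.2‖ ≤ C * (‖B w.1 a.2‖ + ‖a.1‖)

/-- the generating function `K` with its gradient `(k₁, k₂)` and the constant `M` -/
structure IsGen (K : E n × E n → ℝ) (k₁ k₂ : E n × E n → E n) (M : ℝ) : Prop where
  hM : 0 ≤ M
  hK : ContDiff ℝ ∞ K
  perK : ∀ w (k : Fin n → ℤ), K (w.1 + latt k, w.2) = K w
  s1 : ContDiff ℝ ∞ k₁
  s2 : ContDiff ℝ ∞ k₂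
  grad : ∀ w a, fderiv ℝ K w a = ⟪k₁ w, a.1⟫ + ⟪k₂ w, a.2⟫
  p1 : ∀ w (k : Fin n → ℤ), k₁ (w.1 + latt k, w.2) = k₁ w
  p2 : ∀ w (k : Fin n → ℤ), k₂ (w.1 + latt k, w.2) = k₂ w
  b1 : ∀ w, ‖k₁ w‖ ≤ M
  b2 : ∀ w, ‖k₂ w‖ ≤ M
  l1 : ∀ w w', ‖k₁ w - k₁ w'‖ ≤ M * ‖w - w'‖
  l2 : ∀ w w', ‖k₂ w - k₂ w'‖ ≤ M * ‖w - w'‖

/-- the symplectic diffeomorphism `Φ` with the generating function `t K` -/
structure IsTwist (K : E n × E n → ℝ) (k₁ k₂ : E n × E n → E n) (t : ℝ)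
    (Φ : E n × E n ≃ E n × E n) : Prop where
  c1 : ContDiff ℝ ∞ Φ
  c2 : ContDiff ℝ ∞ Φ.symm
  per : ∀ z (k : Fin n → ℤ), Φ (z.1 + latt k, z.2) = ((Φ z).1 + latt k, (Φ z).2)
  sym : ∀ z a b, om (fderiv ℝ Φ z a) (fderiv ℝ Φ z b) = om a b
  gen : ∀ z, ∃ w : E n × E n, w.2 = z.2 ∧ w.1 = z.1 + t • k₂ w ∧ Φ z = (w.1, w.2 - t • k₁ w)

/-- **NL12** tangent vectors in a chart -/
def S_TAN : Prop := ∀ (n : ℕ) (Λ : Set (E n × E n)) (z : E n × E n) (P : E n →L[ℝ] E n)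
  (η : E n → E n) (ρ r : ℝ), IsChart Λ z P η ρ r → ∀ w ∈ Λ, ‖w - z‖ < r → ∀ a,
  IsTangent Λ w a ↔ a = mk P (chi P a) (fderiv ℝ η (chi P w) (chi P a))

/-- **NL13** the set of the vertical tangencies is closed -/
def S_ZCL : Prop := ∀ (n : ℕ) (Λ : Set (E n × E n)), IsLagrangianLift n Λ →
  IsClosed {z | z ∈ Λ ∧ IsVertical Λ z}

/-- **NL14** near a point which is not a vertical tangency -/
def S_NV : Prop := ∀ (n : ℕ) (Λ : Set (E n × E n)), IsLagrangianLift n Λ → ∀ z ∈ Λ,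
  ¬ IsVertical Λ z → IsInjectiveAt Λ z ∧ ∃ C r : ℝ, 0 ≤ C ∧ 0 < r ∧ ∀ w ∈ Λ, ‖w - z‖ < r →
    ∀ a, IsTangent Λ w a → ‖a.2‖ ≤ C * ‖a.1‖

/-- **NL15** separation of two disjoint compact subsets of the cotangent bundle of the torus -/
def S_SEP2 : Prop := ∀ (n : ℕ) (A B : Set (E n × E n)) (R : ℝ), IsClosed A → IsClosed B →
  Disjoint A B → (∀ z ∈ A, ∀ k : Fin n → ℤ, (z.1 + latt k, z.2) ∈ A) →
  (∀ z ∈ B, ∀ k : Fin n → ℤ, (z.1 + latt k, z.2) ∈ B) →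
  (∀ z ∈ A, ‖z.2‖ ≤ R) → (∀ z ∈ B, ‖z.2‖ ≤ R) →
  ∃ e : E n × E n → ℝ, ContDiff ℝ ∞ e ∧ (∀ z, ∀ k : Fin n → ℤ, e (z.1 + latt k, z.2) = e z) ∧
    (∀ z, |e z| ≤ 1) ∧ ∃ δ : ℝ, 0 < δ ∧ (∀ z ∈ A, ∀ w, ‖w - z‖ < δ → e w = 1) ∧
    ∀ z ∈ B, ∀ w, ‖w - z‖ < δ → e w = -1

/-- **NL16** the generating function -/
def S_K : Prop := ∀ (n : ℕ) (Λ : Set (E n × E n)) (B : E n → E n →L[ℝ] E n),
  IsLagrangianLift n Λ → IsSymmetricField B → HasSigns Λ B →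
  ∃ (K : E n × E n → ℝ) (k₁ k₂ : E n × E n → E n) (M C : ℝ), IsGen K k₁ k₂ M ∧ 0 ≤ C ∧
    ∀ z ∈ Λ, ∀ a, IsTangent Λ z a → -C * ‖a.1‖ ^ 2 ≤ ⟪a.1, fderiv ℝ k₂ z (0, a.2)⟫ ∧
      ‖a.2‖ ≤ C * (‖fderiv ℝ k₂ z (0, a.2)‖ + ‖a.1‖)

/-- **NL17** the twist -/
def S_TW : Prop := ∀ (n : ℕ) (Λ : Set (E n × E n)) (K : E n × E n → ℝ)
  (k₁ k₂ : E n × E n → E n) (M C : ℝ), IsLagrangianLift n Λ → IsGen K k₁ k₂ M → 0 ≤ C →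
  (∀ z ∈ Λ, ∀ a, IsTangent Λ z a → -C * ‖a.1‖ ^ 2 ≤ ⟪a.1, fderiv ℝ k₂ z (0, a.2)⟫ ∧
      ‖a.2‖ ≤ C * (‖fderiv ℝ k₂ z (0, a.2)‖ + ‖a.1‖)) →
  ∃ (t : ℝ) (Φ : E n × E n ≃ E n × E n), IsTwist K k₁ k₂ t Φ ∧
    ∀ z ∈ Λ, ∀ a, IsTangent Λ z a → (fderiv ℝ Φ z a).1 = 0 → a = 0

/-- **NL18** the primitive on the image -/
def S_PRIM : Prop := ∀ (n : ℕ) (Λ : Set (E n × E n)) (K : E n × E n → ℝ)
  (k₁ k₂ : E n × E n → E n) (M t : ℝ) (Φ : E n × E n ≃ E n × E n) (f : E n × E n → ℝ),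
  IsGen K k₁ k₂ M → IsTwist K k₁ k₂ t Φ → IsPrimitive Λ f → ∃ f', IsPrimitive (Φ '' Λ) f'

/-- **NL19** the image is a Lagrangian submanifold, and its tangent vectors -/
def S_PUSH : Prop := ∀ (n : ℕ) (Λ : Set (E n × E n)) (K : E n × E n → ℝ)
  (k₁ k₂ : E n × E n → E n) (M t : ℝ) (Φ : E n × E n ≃ E n × E n), IsLagrangianLift n Λ →
  IsGen K k₁ k₂ M → IsTwist K k₁ k₂ t Φ → IsLagrangianLift n (Φ '' Λ) ∧
  ∀ y b, IsTangent (Φ '' Λ) y b → ∃ z ∈ Λ, ∃ a, Φ z = y ∧ IsTangent Λ z a ∧ fderiv ℝ Φ z a = b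

end Pool.Agent.D0H39.NL
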