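import Pool.Agent.D0H39.NL.Stm3

set_option autoImplicit false
set_option maxHeartbeats 400000

open Set Filter Topology Metric Function
open scoped ContDiff RealInnerProductSpace

noncomputable section

namespace Pool.Agent.D0H39.NL

variable {n : ℕ}

theorem t_PUSHC : S_PUSHC := by
  intro n Λ K k₁ k₂ t Φ hΦ h A B hA hB hAi hBi hAB hd
  have hc : Continuous Φ := hΦ.c1.continuous
  have h1 := h (Φ ⁻¹' A) (Φ ⁻¹' B) (hA.preimage hc) (hB.preimage hc)
    (fun z hz k => by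
      show Φ (z.1 + latt k, z.2) ∈ A
      rw [hΦ.per]
      exact hAi _ hz k)
    (fun z hz k => by
      show Φ (z.1 + latt k, z.2) ∈ B
      rw [hΦ.per]
      exact hBi _ hz k)
    (by
      rw [← preimage_union, hAB]
      exact preimage_image_eq Λ Φ.injective)
    (hd.preimage Φ)
  rcases h1 with h1 | h1
  · left
    rw [← image_preimage_eq A Φ.surjective, h1, image_empty]
  · right
    rw [← image_preimage_eq B Φ.surjective, h1, image_empty]

theorem latt_neg (k : Fin n → ℤ) : (latt (-k) : E n) = -latt k := by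
  unfold latt
  ext i
  simp

theorem sheet_shift {Λ : Set (E n × E n)} (hΛ : IsLagrangianLift n Λ) {s : E n → E n}
    (hs : IsSheet Λ s) (k : Fin n → ℤ) : IsSheet Λ (fun q => s (q - latt k)) := by
  refine ⟨hs.1.comp (continuous_id.sub continuous_const), fun q => ?_⟩
  have h1 := hΛ.per _ (hs.2 (q - latt k)) k
  simp only [sub_add_cancel] at h1
  exact h1

/-- near a point of `Λ` all points lie on its sheet -/
theorem sheet_near {Λ : Set (E n × E n)} {x : E n × E n} (hx : IsInjectiveAt Λ x) {t : E n → E n}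
    (ht : IsSheet Λ t) (htx : t x.1 = x.2) :
    ∃ r : ℝ, 0 < r ∧ ∀ y ∈ Λ, ‖y - x‖ < r → y.2 = t y.1 := by
  obtain ⟨r, hr, h⟩ := hx
  have hc : Continuous fun q : E n => ((q, t q) : E n × E n) := continuous_id.prodMk ht.1
  have h1 : ∀ᶠ q in 𝓝 x.1, ‖((q, t q) : E n × E n) - x‖ < r := by
    have h2 : ContinuousAt (fun q : E n => ‖((q, t q) : E n × E n) - x‖) x.1 :=
      (hc.sub continuous_const).norm.continuousAt
    have h3 := h2.tendsto
    have h4 : ((x.1, t x.1) : E n × E n) = x := Prod.ext rfl htx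
    simp only [h4, sub_self, norm_zero] at h3
    exact h3.eventually (gt_mem_nhds hr)
  obtain ⟨δ, hδ, h5⟩ := Metric.eventually_nhds_iff_ball.1 h1
  refine ⟨min r δ, lt_min hr hδ, fun y hy hyx => ?_⟩
  have h6 : ‖y.1 - x.1‖ < δ :=
    lt_of_le_of_lt (norm_fst_le (y - x)) (hyx.trans_le (min_le_right _ _))
  have h7 := h5 y.1 (by rw [mem_ball, dist_eq_norm]; exact h6)
  have h8 := h y hy (y.1, t y.1) (ht.2 _) (hyx.trans_le (min_le_left _ _)) h7 rfl
  rw [h8]

theorem t_CONN (h1 : S_SHEET) (h2 : S_UNIQ) (h3 : S_POT) (h4 : S_FINN) (h5 : S_NV) : S_CONN := by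
  intro n Λ hΛ hv hc z hz w hw hzw
  have hinj : ∀ x ∈ Λ, IsInjectiveAt Λ x := fun x hx => (h5 n Λ hΛ x hx (hv x hx)).1
  obtain ⟨s, hs, hsz⟩ := h1 n Λ hΛ hv z hz
  obtain ⟨s', hs', hsw⟩ := h1 n Λ hΛ hv w hw
  -- membership is locally constant
  obtain ⟨A, hAd⟩ : ∃ A : Set (E n × E n),
      A = {x | x ∈ Λ ∧ ∃ k : Fin n → ℤ, x.2 = s (x.1 - latt k)} := ⟨_, rfl⟩
  have hAm : ∀ x, x ∈ A ↔ x ∈ Λ ∧ ∃ k : Fin n → ℤ, x.2 = s (x.1 - latt k) := fun x => by
    rw [hAd]
    rfl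
  have hloc : ∀ x ∈ Λ, ∃ r : ℝ, 0 < r ∧ ∀ y ∈ Λ, ‖y - x‖ < r → (y ∈ A ↔ x ∈ A) := by
    intro x hx
    obtain ⟨t, ht, htx⟩ := h1 n Λ hΛ hv x hx
    obtain ⟨r, hr, hr2⟩ := sheet_near (hinj x hx) ht htx
    refine ⟨r, hr, fun y hy hyx => ?_⟩
    have e1 := hr2 y hy hyx
    rw [hAm, hAm]
    constructor
    · rintro ⟨-, k, hk⟩
      have e2 := h2 n Λ hinj t _ ht (sheet_shift hΛ hs k) y.1 (by rw [← e1, hk])
      exact ⟨hx, k, by rw [← htx, e2]⟩
    · rintro ⟨-, k, hk⟩
      have e2 := h2 n Λ hinj t _ ht (sheet_shift hΛ hs k) x.1 (by rw [htx, hk])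
      exact ⟨hy, k, by rw [e1, e2]⟩
  have hAcl : IsClosed A := by
    rw [← isOpen_compl_iff, Metric.isOpen_iff]
    intro x hx
    by_cases hxΛ : x ∈ Λ
    · obtain ⟨r, hr, h6⟩ := hloc x hxΛ
      refine ⟨r, hr, fun y hy hyA => ?_⟩
      rw [mem_ball, dist_eq_norm] at hy
      exact hx ((h6 y ((hAm y).1 hyA).1 hy).1 hyA)
    · obtain ⟨r, hr, h6⟩ := Metric.isOpen_iff.1 hΛ.closed.isOpen_compl x hxΛ
      exact ⟨r, hr, fun y hy hyA => h6 hy ((hAm y).1 hyA).1⟩
  have hBcl : IsClosed (Λ \ A) := by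
    rw [← isOpen_compl_iff, Metric.isOpen_iff]
    intro x hx
    by_cases hxΛ : x ∈ Λ
    · have hxA : x ∈ A := by
        by_contra h
        exact hx ⟨hxΛ, h⟩
      obtain ⟨r, hr, h6⟩ := hloc x hxΛ
      refine ⟨r, hr, fun y hy hyB => ?_⟩
      rw [mem_ball, dist_eq_norm] at hy
      exact hyB.2 ((h6 y hyB.1 hy).2 hxA)
    · obtain ⟨r, hr, h6⟩ := Metric.isOpen_iff.1 hΛ.closed.isOpen_compl x hxΛ
      exact ⟨r, hr, fun y hy hyB => h6 hy hyB.1⟩
  have hadd : ∀ k l : Fin n → ℤ, (latt (k + l) : E n) = latt k + latt l := by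
    intro k l
    unfold latt
    ext i
    simp
  have hAinv : ∀ x ∈ A, ∀ k : Fin n → ℤ, (x.1 + latt k, x.2) ∈ A := by
    intro x hx k
    obtain ⟨hxΛ, l, hl⟩ := (hAm x).1 hx
    refine (hAm _).2 ⟨hΛ.per x hxΛ k, l + k, ?_⟩
    show x.2 = s (x.1 + latt k - latt (l + k))
    rw [hadd, hl]
    congr 1
    abel
  have hBinv : ∀ x ∈ Λ \ A, ∀ k : Fin n → ℤ, (x.1 + latt k, x.2) ∈ Λ \ A := by
    intro x hx k
    refine ⟨hΛ.per x hx.1 k, fun h => hx.2 ?_⟩
    have e1 := hAinv _ h (-k)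
    have e2 : ((x.1 + latt k + latt (-k), x.2) : E n × E n) = x := by
      refine Prod.ext ?_ rfl
      show x.1 + latt k + latt (-k) = x.1
      rw [latt_neg]
      abel
    rw [e2] at e1
    exact e1
  have hzA : z ∈ A := by
    refine (hAm z).2 ⟨hz, 0, ?_⟩
    have e1 : (latt 0 : E n) = 0 := by
      unfold latt
      ext i
      simp
    rw [e1, sub_zero, hsz]
  have hsub : A ⊆ Λ := fun x hx => ((hAm x).1 hx).1
  have hwA : w ∈ A := by
    rcases hc A (Λ \ A) hAcl hBcl hAinv hBinv (union_sdiff_cancel hsub) disjoint_sdiff_right with h | h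
    · rw [h] at hzA
      exact hzA.elim
    · by_contra h6
      have : w ∈ Λ \ A := ⟨hw, h6⟩
      rw [h] at this
      exact this
  obtain ⟨-, k, hk⟩ := (hAm w).1 hwA
  have hss : s' = fun q => s (q - latt k) :=
    h2 n Λ hinj s' _ hs' (sheet_shift hΛ hs k) w.1 (by rw [hsw, hk])
  obtain ⟨u, hu⟩ := h3 n Λ hΛ hv s hs
  obtain ⟨N, hN, hNs⟩ := h4 n Λ hΛ hinj s hs
  have hushift : ∀ (v q : E n), HasFDerivAt (fun q => u (q + v)) (innerSL ℝ (s (q + v))) q := by
    intro v q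
    have e1 : HasFDerivAt (fun q : E n => q + v) (ContinuousLinearMap.id ℝ (E n)) q :=
      (hasFDerivAt_id q).add_const v
    have e2 := (hu (q + v)).comp q e1
    rw [ContinuousLinearMap.comp_id] at e2
    exact e2
  have hW : ∀ q, HasFDerivAt (fun q => u (q + -latt k) - u q)
      (innerSL ℝ (s (q + -latt k)) - innerSL ℝ (s q)) q := fun q => (hushift _ q).sub (hu q)
  have hconst : ∀ l : Fin n → ℤ, ∀ q q' : E n,
      u (q + (N : ℝ) • latt l) - u q = u (q' + (N : ℝ) • latt l) - u q' := by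
    intro l q q'
    have e1 : ∀ q, HasFDerivAt (fun q => u (q + (N : ℝ) • latt l) - u q) (0 : E n →L[ℝ] ℝ) q := by
      intro q
      have e2 := (hushift ((N : ℝ) • latt l) q).sub (hu q)
      rw [hNs l q, sub_self] at e2
      exact e2
    exact is_const_of_fderiv_eq_zero (𝕜 := ℝ) (f := fun q => u (q + (N : ℝ) • latt l) - u q)
      (fun q => (e1 q).differentiableAt) (fun q => (e1 q).fderiv) q q'
  have hWper : ∀ (l : Fin n → ℤ) (q : E n), u (q + (N : ℝ) • latt l + -latt k) -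
      u (q + (N : ℝ) • latt l) = u (q + -latt k) - u q := by
    intro l q
    have e1 := hconst l (q + -latt k) q
    have e2 : q + (N : ℝ) • latt l + -latt k = q + -latt k + (N : ℝ) • latt l := by abel
    rw [e2]
    linarith
  -- the maximum
  have hWc : Continuous (fun q => u (q + -latt k) - u q) :=
    continuous_iff_continuousAt.2 fun q => (hW q).continuousAt
  obtain ⟨Kc, hKc, hKne, hKcov⟩ : ∃ Kc : Set (E n), IsCompact Kc ∧ Kc.Nonempty ∧
      ∀ q : E n, ∃ l : Fin n → ℤ, q + (N : ℝ) • latt l ∈ Kc := by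
    refine ⟨closedBall 0 ((n : ℝ) * N + 1), isCompact_closedBall 0 _,
      ⟨0, mem_closedBall_self (by positivity)⟩, fun q => ?_⟩
    refine ⟨fun i => -⌊q i / N⌋, ?_⟩
    have hN0 : (0 : ℝ) < N := by exact_mod_cast hN
    have e1 : ∀ i, |(q + (N : ℝ) • latt (fun i => -⌊q i / N⌋)) i| ≤ N := by
      intro i
      have e2 : (q + (N : ℝ) • latt (fun i => -⌊q i / N⌋)) i = q i - N * ⌊q i / N⌋ := by
        simp [latt]
        ring
      rw [e2]
      have e3 := Int.floor_le (q i / N)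
      have e4 := Int.lt_floor_add_one (q i / N)
      rw [le_div_iff₀ hN0] at e3
      rw [div_lt_iff₀ hN0] at e4
      rw [abs_le]
      constructor <;> nlinarith
    rw [mem_closedBall_zero_iff]
    have e2 : ‖q + (N : ℝ) • latt (fun i => -⌊q i / N⌋)‖ ≤
        ∑ i, ‖(q + (N : ℝ) • latt (fun i => -⌊q i / N⌋)) i‖ := by
      rw [EuclideanSpace.norm_eq]
      refine (Real.sqrt_le_sqrt (Finset.sum_sq_le_sq_sum_of_nonneg ?_)).trans ?_
      · intro i _
        exact norm_nonneg _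
      · rw [Real.sqrt_sq (Finset.sum_nonneg fun i _ => norm_nonneg _)]
    refine e2.trans ?_
    have e3 : ∑ i, ‖(q + (N : ℝ) • latt (fun i => -⌊q i / N⌋)) i‖ ≤ ∑ _i : Fin n, (N : ℝ) :=
      Finset.sum_le_sum fun i _ => by
        rw [Real.norm_eq_abs]
        exact e1 i
    simp only [Finset.sum_const, Finset.card_univ, Fintype.card_fin, nsmul_eq_mul] at e3
    linarith
  obtain ⟨q₀, -, hq₀⟩ := hKc.exists_isMaxOn hKne hWc.continuousOn
  have hmax : IsLocalMax (fun q => u (q + -latt k) - u q) q₀ := by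
    refine Filter.Eventually.of_forall fun q => ?_
    obtain ⟨l, hl⟩ := hKcov q
    have e1 := hq₀ hl
    simp only [mem_ofPred_eq] at e1
    rw [hWper l q] at e1
    exact e1
  have e1 := hmax.hasFDerivAt_eq_zero (hW q₀)
  have e2 : s (q₀ + -latt k) = s q₀ := by
    refine ext_inner_right ℝ fun v => ?_
    have e3 := congrArg (fun T : E n →L[ℝ] ℝ => T v) e1
    simp only [_root_.sub_apply, innerSL_apply_apply, _root_.zero_apply] at e3
    linarith
  have e3 : s' = s := h2 n Λ hinj s' s hs' hs q₀ (by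
    rw [hss, ← e2]
    show s (q₀ - latt k) = s (q₀ + -latt k)
    rw [sub_eq_add_neg])
  refine Prod.ext hzw ?_
  rw [← hsz, ← hsw, e3, hzw]

end Pool.Agent.D0H39.NL
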