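import Pool.Agent.D0H39.NL.Main
import Pool.Agent.D0H39.NL.Conn

set_option autoImplicit false
set_option maxHeartbeats 400000

open Set Filter Topology Metric Function
open scoped ContDiff RealInnerProductSpace

noncomputable section

namespace Pool.Agent.D0H39.NL

variable {n : ℕ}

/-- difference quotients of a curve -/
theorem quot {c : ℝ → E n × E n} (hc : ContDiffAt ℝ ∞ c 0) :
    Tendsto (fun t : ℝ => t⁻¹ • (c t - c 0)) (𝓝[≠] 0) (𝓝 (deriv c 0)) := by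
  have h1 : HasDerivAt c (deriv c 0) 0 := (hc.differentiableAt (by simp)).hasDerivAt
  have h2 := h1.tendsto_slope_zero
  simpa using h2

theorem lip_tan {Λ : Set (E n × E n)} {z : E n × E n} (h : LipschitzNear Λ z) {a : E n}
    (hz : z ∈ Λ) (ha : IsTangent Λ z (0, a)) : a = 0 := by
  obtain ⟨C, r, hC, hr, h1⟩ := h
  obtain ⟨c, hc, hcΛ, hc0, hcd⟩ := ha
  have hq := quot hc
  rw [hcd] at hq
  have q1 : Tendsto (fun t : ℝ => ‖(t⁻¹ • (c t - c 0)).1‖) (𝓝[≠] 0) (𝓝 ‖(0 : E n)‖) :=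
    ((continuous_fst.tendsto _).comp hq).norm
  have q2 : Tendsto (fun t : ℝ => ‖(t⁻¹ • (c t - c 0)).2‖) (𝓝[≠] 0) (𝓝 ‖a‖) :=
    ((continuous_snd.tendsto _).comp hq).norm
  have hnear : ∀ᶠ t in 𝓝 (0 : ℝ), ‖c t - z‖ < r := by
    have h2 : ContinuousAt (fun t => ‖c t - z‖) 0 := (hc.continuousAt.sub continuousAt_const).norm
    have h3 := h2.tendsto
    simp only [hc0, sub_self, norm_zero] at h3
    exact h3.eventually (gt_mem_nhds hr)
  have h2 : ‖a‖ ≤ C * ‖(0 : E n)‖ := by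
    refine le_of_tendsto_of_tendsto q2 (q1.const_mul C) ?_
    filter_upwards [hnear.filter_mono nhdsWithin_le_nhds, hcΛ.filter_mono nhdsWithin_le_nhds]
      with t ht1 ht2
    have h3 := h1 (c t) ht2 z hz ht1 (by rw [sub_self, norm_zero]; exact hr)
    rw [hc0]
    show ‖t⁻¹ • ((c t).2 - z.2)‖ ≤ C * ‖t⁻¹ • ((c t).1 - z.1)‖
    rw [norm_smul, norm_smul]
    calc ‖t⁻¹‖ * ‖(c t).2 - z.2‖ ≤ ‖t⁻¹‖ * (C * ‖(c t).1 - z.1‖) :=
          mul_le_mul_of_nonneg_left h3 (norm_nonneg _)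
      _ = C * (‖t⁻¹‖ * ‖(c t).1 - z.1‖) := by ring
  rw [norm_zero, mul_zero] at h2
  exact norm_le_zero_iff.1 h2

theorem os_tan {Λ : Set (E n × E n)} {w : E n × E n} {ε C r : ℝ} (hr : 0 < r)
    (h1 : ∀ y ∈ Λ, ‖y - w‖ < r → -C * ‖y.1 - w.1‖ ^ 2 ≤ ε * ⟪y.1 - w.1, y.2 - w.2⟫)
    {a : E n × E n} (ha : IsTangent Λ w a) : -C * ‖a.1‖ ^ 2 ≤ ε * ⟪a.1, a.2⟫ := by
  obtain ⟨c, hc, hcΛ, hc0, hcd⟩ := ha
  have hq := quot hc
  rw [hcd] at hq
  have q1 : Tendsto (fun t : ℝ => (t⁻¹ • (c t - c 0)).1) (𝓝[≠] 0) (𝓝 a.1) :=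
    (continuous_fst.tendsto _).comp hq
  have q2 : Tendsto (fun t : ℝ => (t⁻¹ • (c t - c 0)).2) (𝓝[≠] 0) (𝓝 a.2) :=
    (continuous_snd.tendsto _).comp hq
  have hnear : ∀ᶠ t in 𝓝 (0 : ℝ), ‖c t - w‖ < r := by
    have h2 : ContinuousAt (fun t => ‖c t - w‖) 0 := (hc.continuousAt.sub continuousAt_const).norm
    have h3 := h2.tendsto
    simp only [hc0, sub_self, norm_zero] at h3
    exact h3.eventually (gt_mem_nhds hr)
  refine le_of_tendsto_of_tendsto ((q1.norm.pow 2).const_mul (-C)) ((q1.inner q2).const_mul ε) ?_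
  filter_upwards [hnear.filter_mono nhdsWithin_le_nhds, hcΛ.filter_mono nhdsWithin_le_nhds]
    with t ht1 ht2
  have h3 := h1 (c t) ht2 ht1
  rw [hc0]
  show -C * ‖t⁻¹ • ((c t).1 - w.1)‖ ^ 2 ≤ ε * ⟪t⁻¹ • ((c t).1 - w.1), t⁻¹ • ((c t).2 - w.2)⟫
  rw [norm_smul, inner_smul_left, inner_smul_right, Real.norm_eq_abs, mul_pow, sq_abs]
  simp only [RCLike.conj_to_real]
  have h4 : 0 ≤ (t⁻¹) ^ 2 := sq_nonneg _
  nlinarith [mul_le_mul_of_nonneg_left h3 h4]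

theorem os_near {Λ : Set (E n × E n)} {z w : E n × E n} {ε C r : ℝ} (hC : 0 ≤ C)
    (h1 : ∀ y ∈ Λ, ∀ y' ∈ Λ, ‖y - z‖ < r → ‖y' - z‖ < r →
      -C * ‖y.1 - y'.1‖ ^ 2 ≤ ε * ⟪y.1 - y'.1, y.2 - y'.2⟫) (hw : ‖w - z‖ < r) :
    OneSidedNear Λ w ε := by
  refine ⟨C, r - ‖w - z‖, hC, by linarith, fun y hy y' hy' hyw hyw' => h1 y hy y' hy' ?_ ?_⟩
  · have : y - z = (y - w) + (w - z) := by abel
    rw [this]
    exact (norm_add_le _ _).trans_lt (by linarith)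
  · have : y' - z = (y' - w) + (w - z) := by abel
    rw [this]
    exact (norm_add_le _ _).trans_lt (by linarith)

theorem os_shift {Λ : Set (E n × E n)} (hΛ : IsLagrangianLift n Λ) {z : E n × E n} {ε : ℝ}
    (k : Fin n → ℤ) (h : OneSidedNear Λ z ε) : OneSidedNear Λ (z.1 + latt k, z.2) ε := by
  obtain ⟨C, r, hC, hr, h1⟩ := h
  have hm : ∀ y ∈ Λ, (y.1 + latt (-k), y.2) ∈ Λ := fun y hy => hΛ.per y hy (-k)
  have hn : ∀ y : E n × E n, ((y.1 + latt (-k), y.2) : E n × E n) - z =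
      y - (z.1 + latt k, z.2) := by
    intro y
    refine Prod.ext ?_ rfl
    show y.1 + latt (-k) - z.1 = y.1 - (z.1 + latt k)
    rw [latt_neg]
    abel
  refine ⟨C, r, hC, hr, fun y hy y' hy' hyz hyz' => ?_⟩
  have h2 := h1 _ (hm y hy) _ (hm y' hy') (by rw [hn]; exact hyz) (by rw [hn]; exact hyz')
  have h3 : y.1 + latt (-k) - (y'.1 + latt (-k)) = y.1 - y'.1 := by abel
  simp only [h3] at h2
  exact h2

theorem t_LIS : S_LIS := by
  intro n Λ hΛ h1 h2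
  have hos : ∀ z ∈ Λ, OneSidedNear Λ z 1 ∨ OneSidedNear Λ z (-1) := by
    intro z hz
    obtain ⟨P, η, ρ, r, ε, M, h⟩ := exists_good hΛ hz (h1 z hz) (h2 z hz)
    have h4 := D0H23.NL.t_PAIR n Λ z P η ρ r ε M h
    rcases h.eps with rfl | rfl
    · exact Or.inl h4
    · exact Or.inr h4
  have hnb : ∀ z ∈ Λ, IsVertical Λ z → OneSidedNear Λ z 1 → ¬ OneSidedNear Λ z (-1) := by
    rintro z hz ⟨a, ha, hat⟩ h4 h5
    obtain ⟨P, η, ρ, r, h⟩ := t_CHART n Λ hΛ z hz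
    have h6 := D0H98.NL.t_BOTH t_SHRINK n Λ z P η ρ r h (h2 z hz) h4 h5
    exact ha (lip_tan h6 hz hat)
  classical
  refine ⟨fun z => if OneSidedNear Λ z 1 then 1 else -1, fun z k => ?_, fun z => ?_,
    fun z hz hv => ?_⟩
  · have h3 : OneSidedNear Λ (z.1 + latt k, z.2) 1 ↔ OneSidedNear Λ z 1 := by
      constructor
      · intro h
        have h4 := os_shift hΛ (-k) h
        have h5 : (((z.1 + latt k, z.2) : E n × E n).1 + latt (-k), ((z.1 + latt k, z.2) : E n × E n).2)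
            = z := by
          refine Prod.ext ?_ rfl
          show z.1 + latt k + latt (-k) = z.1
          rw [latt_neg]
          abel
        rw [h5] at h4
        exact h4
      · exact os_shift hΛ k
    simp only [h3]
  · by_cases h3 : OneSidedNear Λ z 1
    · exact Or.inl (if_pos h3)
    · exact Or.inr (if_neg h3)
  · obtain ⟨ε, hε, hσ, hosε⟩ : ∃ ε : ℝ, (ε = 1 ∨ ε = -1) ∧
        (if OneSidedNear Λ z 1 then (1 : ℝ) else -1) = ε ∧ OneSidedNear Λ z ε := by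
      by_cases h3 : OneSidedNear Λ z 1
      · exact ⟨1, Or.inl rfl, if_pos h3, h3⟩
      · exact ⟨-1, Or.inr rfl, if_neg h3, (hos z hz).resolve_left h3⟩
    obtain ⟨C, r, hC, hr, h3⟩ := hosε
    refine ⟨max C 1, r, hr, fun w hw hwz => ⟨fun hvw => ?_, fun a ha => ⟨?_, ?_⟩⟩⟩
    · have h4 : OneSidedNear Λ w ε := os_near hC h3 hwz
      show (if OneSidedNear Λ w 1 then (1 : ℝ) else -1) =
        (if OneSidedNear Λ z 1 then (1 : ℝ) else -1)
      rw [hσ]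
      rcases hε with rfl | rfl
      · exact if_pos h4
      · exact if_neg fun h5 => hnb w hw hvw h5 h4
    · show _ ≤ (if OneSidedNear Λ z 1 then (1 : ℝ) else -1) * _
      rw [hσ]
      have h4 : -C * ‖a.1‖ ^ 2 ≤ ε * ⟪a.1, a.2⟫ := by
        refine os_tan (r := r - ‖w - z‖) (by linarith) (fun y hy hyw => h3 y hy w hw ?_ hwz) ha
        have : y - z = (y - w) + (w - z) := by abel
        rw [this]
        exact (norm_add_le _ _).trans_lt (by linarith)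
      have h5 : C * ‖a.1‖ ^ 2 ≤ max C 1 * ‖a.1‖ ^ 2 :=
        mul_le_mul_of_nonneg_right (le_max_left _ _) (by positivity)
      have h6 : (ContinuousLinearMap.id ℝ (E n)) a.2 = a.2 := rfl
      rw [h6]
      linarith
    · have h6 : (ContinuousLinearMap.id ℝ (E n)) a.2 = a.2 := rfl
      rw [h6]
      have h5 : 1 * (‖a.2‖ + ‖a.1‖) ≤ max C 1 * (‖a.2‖ + ‖a.1‖) :=
        mul_le_mul_of_nonneg_right (le_max_right _ _) (by positivity)
      have h7 := norm_nonneg a.1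
      linarith

end Pool.Agent.D0H39.NL
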