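import Pool.Agent.D0H39.NL.Stm

set_option autoImplicit false
set_option maxHeartbeats 400000

open Set Filter Topology Metric Function
open scoped ContDiff RealInnerProductSpace

noncomputable section

namespace Pool.Agent.D0H39.NL

variable {n : ℕ}

theorem chi_mk {P : E n →L[ℝ] E n} (hP : IsProj P) (x y : E n) : chi P (mk P x y) = x := by
  simp only [chi, mk, map_sub, map_add, hP.1]
  abel

theorem zeta_mk {P : E n →L[ℝ] E n} (hP : IsProj P) (x y : E n) : zeta P (mk P x y) = y := by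
  simp only [zeta, mk, map_sub, map_add, hP.1]
  abel

theorem mk_chi_zeta {P : E n →L[ℝ] E n} (hP : IsProj P) (w : E n × E n) :
    mk P (chi P w) (zeta P w) = w := by
  simp only [zeta, mk, chi, map_sub, map_add, hP.1]
  refine Prod.ext ?_ ?_
  · show _ = w.1
    abel
  · show _ = w.2
    abel

/-- `chi` as a continuous linear map -/
def chiL (P : E n →L[ℝ] E n) : E n × E n →L[ℝ] E n :=
  ContinuousLinearMap.fst ℝ (E n) (E n) - P.comp (ContinuousLinearMap.fst ℝ (E n) (E n)) +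
    P.comp (ContinuousLinearMap.snd ℝ (E n) (E n))

theorem chiL_apply (P : E n →L[ℝ] E n) (w : E n × E n) : chiL P w = chi P w := rfl

/-- `zeta` as a continuous linear map -/
def zetaL (P : E n →L[ℝ] E n) : E n × E n →L[ℝ] E n :=
  ContinuousLinearMap.snd ℝ (E n) (E n) - P.comp (ContinuousLinearMap.snd ℝ (E n) (E n)) -
    P.comp (ContinuousLinearMap.fst ℝ (E n) (E n))

theorem zetaL_apply (P : E n →L[ℝ] E n) (w : E n × E n) : zetaL P w = zeta P w := rfl

/-- `mk` as a continuous linear map -/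
def mkL (P : E n →L[ℝ] E n) : E n × E n →L[ℝ] E n × E n :=
  ContinuousLinearMap.prod
    (ContinuousLinearMap.fst ℝ (E n) (E n) - P.comp (ContinuousLinearMap.fst ℝ (E n) (E n)) -
      P.comp (ContinuousLinearMap.snd ℝ (E n) (E n)))
    (P.comp (ContinuousLinearMap.fst ℝ (E n) (E n)) + (ContinuousLinearMap.snd ℝ (E n) (E n) -
      P.comp (ContinuousLinearMap.snd ℝ (E n) (E n))))

theorem mkL_apply (P : E n →L[ℝ] E n) (x y : E n) : mkL P (x, y) = mk P x y := rfl

theorem continuous_chi (P : E n →L[ℝ] E n) : Continuous (chi P) := (chiL P).continuous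

theorem eta_smooth {Λ : Set (E n × E n)} {z : E n × E n} {P : E n →L[ℝ] E n} {η : E n → E n}
    {ρ r : ℝ} (h : IsChart Λ z P η ρ r) {x : E n} (hx : x ∈ ball (chi P z) ρ) :
    ContDiffAt ℝ ∞ η x := h.smooth.contDiffAt (isOpen_ball.mem_nhds hx)

theorem eta_deriv {Λ : Set (E n × E n)} {z : E n × E n} {P : E n →L[ℝ] E n} {η : E n → E n}
    {ρ r : ℝ} (h : IsChart Λ z P η ρ r) {x : E n} (hx : x ∈ ball (chi P z) ρ) :
    HasFDerivAt η (fderiv ℝ η x) x :=
  ((eta_smooth h hx).differentiableAt (by simp)).hasFDerivAt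

theorem W_smooth {Λ : Set (E n × E n)} {z : E n × E n} {P : E n →L[ℝ] E n} {η : E n → E n}
    {ρ r : ℝ} (h : IsChart Λ z P η ρ r) {x : E n} (hx : x ∈ ball (chi P z) ρ) :
    ContDiffAt ℝ ∞ (fun x => mk P x (η x)) x :=
  (show ContDiff ℝ ∞ (mkL P) from (mkL P).contDiff).contDiffAt.comp x
    (show ContDiffAt ℝ ∞ (fun x => (x, η x)) x from contDiffAt_id.prodMk (eta_smooth h hx))

theorem W_deriv {Λ : Set (E n × E n)} {z : E n × E n} {P : E n →L[ℝ] E n} {η : E n → E n}
    {ρ r : ℝ} (h : IsChart Λ z P η ρ r) {x : E n} (hx : x ∈ ball (chi P z) ρ) :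
    HasFDerivAt (fun x => mk P x (η x))
      ((mkL P).comp ((ContinuousLinearMap.id ℝ (E n)).prod (fderiv ℝ η x))) x :=
  HasFDerivAt.comp (g := mkL P) (f := fun x => (x, η x)) x ((mkL P).hasFDerivAt)
    ((hasFDerivAt_id x).prodMk (eta_deriv h hx))

/-- the curve `t ↦ W (x + t v)` -/
theorem W_line {Λ : Set (E n × E n)} {z : E n × E n} {P : E n →L[ℝ] E n} {η : E n → E n}
    {ρ r : ℝ} (h : IsChart Λ z P η ρ r) (x v : E n) (s : ℝ) (hx : x + s • v ∈ ball (chi P z) ρ) :
    ContDiffAt ℝ ∞ (fun t : ℝ => mk P (x + t • v) (η (x + t • v))) s ∧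
    HasDerivAt (fun t : ℝ => mk P (x + t • v) (η (x + t • v)))
      (mk P v (fderiv ℝ η (x + s • v) v)) s ∧
    ∀ᶠ t in 𝓝 s, mk P (x + t • v) (η (x + t • v)) ∈ Λ := by
  have h1 : ContDiff ℝ ∞ (fun t : ℝ => x + t • v) := contDiff_const.add (contDiff_id.smul contDiff_const)
  have h2 : HasDerivAt (fun t : ℝ => x + t • v) v s := by
    have := ((hasDerivAt_id s).smul_const v).const_add x
    simpa using this
  refine ⟨?_, ?_, ?_⟩
  · exact ContDiffAt.comp (g := fun x => mk P x (η x)) (f := fun t : ℝ => x + t • v) s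
      (W_smooth h hx) h1.contDiffAt
  · exact HasFDerivAt.comp_hasDerivAt (l := fun x => mk P x (η x)) (f := fun t : ℝ => x + t • v) s
      (W_deriv h hx) h2
  · have h3 : ∀ᶠ t in 𝓝 s, x + t • v ∈ ball (chi P z) ρ :=
      h1.continuous.continuousAt.eventually_mem (isOpen_ball.mem_nhds hx)
    exact h3.mono fun t ht => h.mem _ ht

theorem t_SHRINK : S_SHRINK := by
  intro n Λ z P η ρ r h ρ' r' hρ' hr'
  have hx0 : chi P z ∈ ball (chi P z) ρ := mem_ball_self h.hρ
  have hc : ContinuousAt (fun x => mk P x (η x)) (chi P z) := (W_smooth h hx0).continuousAt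
  have h1 : ∀ᶠ x in 𝓝 (chi P z), ‖mk P x (η x) - z‖ < r' := by
    have h2 : Tendsto (fun x => ‖mk P x (η x) - z‖) (𝓝 (chi P z)) (𝓝 0) := by
      have h3 : ContinuousAt (fun x => ‖mk P x (η x) - z‖) (chi P z) :=
        (hc.sub continuousAt_const).norm
      have h4 := h3.tendsto
      simp only [h.base, sub_self, norm_zero] at h4
      exact h4
    exact h2.eventually (gt_mem_nhds hr')
  obtain ⟨ρ₂, hρ₂, h2⟩ := Metric.eventually_nhds_iff_ball.1 h1
  set ρ₁ := min (min ρ ρ') ρ₂ with hρ₁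
  have hρ₁0 : 0 < ρ₁ := lt_min (lt_min h.hρ hρ') hρ₂
  have hsub : ball (chi P z) ρ₁ ⊆ ball (chi P z) ρ :=
    ball_subset_ball ((min_le_left _ _).trans (min_le_left _ _))
  have h3 : ∀ᶠ w in 𝓝 z, chi P w ∈ ball (chi P z) ρ₁ :=
    (continuous_chi P).continuousAt.eventually_mem (ball_mem_nhds _ hρ₁0)
  obtain ⟨r₂, hr₂, h4⟩ := Metric.eventually_nhds_iff_ball.1 h3
  refine ⟨ρ₁, min (min r r') r₂, (min_le_left _ _).trans (min_le_right _ _),
    (min_le_left _ _).trans (min_le_right _ _), ?_, fun x hx => h2 x (ball_subset_ball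
      (min_le_right _ _) hx)⟩
  refine ⟨h.proj, hρ₁0, lt_min (lt_min h.hr hr') hr₂, h.smooth.mono hsub, h.base,
    fun x hx => h.mem x (hsub hx), fun w hw hwz => ⟨?_, ?_⟩, fun x hx => h.symm x (hsub hx), h.vert⟩
  · apply h4
    rw [mem_ball, dist_eq_norm]
    exact hwz.trans_le (min_le_right _ _)
  · exact (h.cover w hw (hwz.trans_le ((min_le_left _ _).trans (min_le_left _ _)))).2

end Pool.Agent.D0H39.NL
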