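import Pool.Agent.D0H39.NL.Chart
import Pool.Agent.D0H9.NL.Field
import Pool.Agent.D0H9.NL.Max
import Pool.Agent.D0H9.NL.Open
import Pool.Agent.D0H9.NL.Sep
import Pool.Agent.D0H23.NL.Diff
import Pool.Agent.D0H98.NL.Sign1
import Pool.Agent.D0H98.NL.Sign2
import Pool.Agent.D0H98.NL.Both
import Pool.Agent.Y522.ML.Var

/-! # Closed Lagrangian submanifolds of the cotangent bundle of the torus without folds -/

set_option autoImplicit false
set_option maxHeartbeats 400000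

open Set Filter Topology Metric Function
open scoped ContDiff RealInnerProductSpace

noncomputable section

namespace Pool.Agent.D0H39.NL

variable {n : ℕ}

/-- `ψ` and its inverse are smooth -/
def IsSmoothDiffeo (ψ : E n × E n ≃ E n × E n) : Prop := ContDiff ℝ ∞ ψ ∧ ContDiff ℝ ∞ ψ.symm

/-- `ψ` preserves the symplectic form -/
def PreservesForm (ψ : E n × E n ≃ E n × E n) : Prop :=
  ∀ z a b, om (fderiv ℝ ψ z a) (fderiv ℝ ψ z b) = om a b

/-- `ψ` commutes with the translations `(q, p) ↦ (q + k, p)` -/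
def IsEquivariant (ψ : E n × E n ≃ E n × E n) : Prop :=
  ∀ (z : E n × E n) (k : Fin n → ℤ), ψ (z.1 + latt k, z.2) = ((ψ z).1 + latt k, (ψ z).2)

/-- `Λ` is the image of the zero section under a symplectic diffeomorphism of the cotangent bundle
of the torus -/
def IsImage (Λ : Set (E n × E n)) : Prop :=
  ∃ ψ : E n × E n ≃ E n × E n,
    IsSmoothDiffeo ψ ∧ PreservesForm ψ ∧ IsEquivariant ψ ∧ ψ '' {z | z.2 = 0} = Λ

theorem toLagT {Λ : Set (E n × E n)} (h : IsLagrangianLift n Λ) : Pool.Agent.Y522.ML.LagT n Λ :=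
  ⟨h.closed, h.nonempty, h.per, h.bdd, fun z hz => by
    obtain ⟨F, f1, ⟨f2, f3, f4⟩, f5, f6⟩ := h.par z hz
    exact ⟨F, f2, f1, f3, f6, f4, f5⟩⟩

theorem exists_good {Λ : Set (E n × E n)} (hΛ : IsLagrangianLift n Λ) {z : E n × E n} (hz : z ∈ Λ)
    (h1 : IsSimpleAt Λ z ∨ IsSemidefiniteAt Λ z) (h2 : IsInjectiveAt Λ z) :
    ∃ (P : E n →L[ℝ] E n) (η : E n → E n) (ρ r ε M : ℝ), IsGood Λ z P η ρ r ε M := by
  obtain ⟨P, η, ρ, r, h⟩ := t_CHART n Λ hΛ z hz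
  rcases h1 with h1 | h1
  · obtain ⟨ρ₁, r₁, ε, M, h3⟩ := D0H98.NL.t_SIGN1 t_SHRINK n Λ z P η ρ r h h1 h2
    exact ⟨P, η, ρ₁, r₁, ε, M, h3⟩
  · obtain ⟨ρ₁, r₁, ε, M, h3⟩ := D0H98.NL.t_SIGN2 t_SHRINK n Λ z P η ρ r h h1
    exact ⟨P, η, ρ₁, r₁, ε, M, h3⟩

theorem part1 {Λ : Set (E n × E n)} (hΛ : IsLagrangianLift n Λ)
    (h1 : ∀ z ∈ Λ, IsSimpleAt Λ z ∨ IsSemidefiniteAt Λ z)
    (h2 : ∀ z ∈ Λ, ∀ w ∈ Λ, z.1 = w.1 → z = w) : IsImage Λ := by
  have hinj : ∀ z, IsInjectiveAt Λ z := fun z =>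
    ⟨1, one_pos, fun w hw w' hw' _ _ h => h2 w hw w' hw' h⟩
  obtain ⟨e, e1, e2, C, δ, hδ, h3⟩ := D0H9.NL.t_FIELD D0H9.NL.t_SEP n Λ hΛ h2
    (fun z hz => by
      obtain ⟨P, η, ρ, r, ε, M, h⟩ := exists_good hΛ hz (h1 z hz) (hinj z)
      have h4 := D0H23.NL.t_PAIR n Λ z P η ρ r ε M h
      rcases h.eps with rfl | rfl
      · exact Or.inl h4
      · exact Or.inr h4)
    (fun z hz h4 h5 => by
      obtain ⟨P, η, ρ, r, h⟩ := t_CHART n Λ hΛ z hz
      exact D0H98.NL.t_BOTH t_SHRINK n Λ z P η ρ r h (hinj z) h4 h5)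
  obtain ⟨ψ, p1, p2, p3, p4, p5⟩ := Pool.Agent.Y522.ML.var (toLagT hΛ)
    (fun q => e q • ContinuousLinearMap.id ℝ (E n)) (e1.smul contDiff_const)
    (fun q k => by
      have := e2 q k
      simp only [latt] at this
      show e (q + Pool.Agent.Y522.ML.latt k) • _ = _
      simp only [Pool.Agent.Y522.ML.latt]
      rw [this])
    (fun q v w => by simp [inner_smul_left, inner_smul_right]) (C := C) (b := 1) one_pos hδ
    (fun z hz z' hz' h => by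
      obtain ⟨g1, g2⟩ := h3 z hz z' hz' h
      refine ⟨?_, ?_⟩
      · simp only [_root_.smul_apply, ContinuousLinearMap.id_apply, inner_smul_right]
        exact g1
      · simp only [_root_.smul_apply, ContinuousLinearMap.id_apply, norm_smul,
          Real.norm_eq_abs, one_mul]
        exact g2)
  exact ⟨ψ, ⟨p1, p2⟩, p4, p3, p5⟩

theorem part2 {Λ : Set (E n × E n)} (hΛ : IsLagrangianLift n Λ) {f : E n × E n → ℝ}
    (hf : IsPrimitive Λ f) (h1 : ∀ z ∈ Λ, IsSimpleAt Λ z ∨ IsSemidefiniteAt Λ z)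
    (h2 : ∀ z ∈ Λ, IsInjectiveAt Λ z) : IsImage Λ := by
  refine part1 hΛ h1 (D0H9.NL.t_MAX n Λ f hΛ hf (fun z hz => ?_) (fun z hz => ?_))
  · obtain ⟨P, η, ρ, r, ε, M, h⟩ := exists_good hΛ hz (h1 z hz) (h2 z hz)
    exact D0H23.NL.t_DIFF n Λ z P η ρ r ε M f h hz hf
  · obtain ⟨P, η, ρ, r, ε, M, h⟩ := exists_good hΛ hz (h1 z hz) (h2 z hz)
    exact D0H9.NL.t_OPEN n Λ z P η ρ r ε M f h hz hf (h2 z hz)

end Pool.Agent.D0H39.NL
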