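import Pool.Agent.D0H39.NL.Main
import Pool.Agent.D0H39.NL.Stm2

/-! # Exact Lagrangian submanifolds with signs of the vertical tangencies -/

set_option autoImplicit false
set_option maxHeartbeats 400000

open Set Filter Topology Metric Function
open scoped ContDiff RealInnerProductSpace

noncomputable section

namespace Pool.Agent.D0H39.NL

variable {n : ℕ}

theorem isImage_pull {Λ : Set (E n × E n)} {Φ : E n × E n ≃ E n × E n} (h1 : IsSmoothDiffeo Φ)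
    (h2 : PreservesForm Φ) (h3 : IsEquivariant Φ) (h : IsImage (Φ '' Λ)) : IsImage Λ := by
  obtain ⟨ψ, p1, p2, p3, p4⟩ := h
  have hd : ∀ z, HasFDerivAt Φ (fderiv ℝ Φ z) z := fun z =>
    (h1.1.differentiable (by simp)).differentiableAt.hasFDerivAt
  have hd' : ∀ z, HasFDerivAt Φ.symm (fderiv ℝ Φ.symm z) z := fun z =>
    (h1.2.differentiable (by simp)).differentiableAt.hasFDerivAt
  have hψ : ∀ z, HasFDerivAt ψ (fderiv ℝ ψ z) z := fun z =>
    (p1.1.differentiable (by simp)).differentiableAt.hasFDerivAt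
  have hinv : ∀ y a, fderiv ℝ Φ (Φ.symm y) (fderiv ℝ Φ.symm y a) = a := by
    intro y a
    have g1 : HasFDerivAt (fun y => Φ (Φ.symm y)) ((fderiv ℝ Φ (Φ.symm y)).comp
        (fderiv ℝ Φ.symm y)) y := (hd (Φ.symm y)).comp y (hd' y)
    have g2 : HasFDerivAt (fun y => Φ (Φ.symm y)) (ContinuousLinearMap.id ℝ _) y := by
      have : (fun y => Φ (Φ.symm y)) = fun y => y := funext fun y => Φ.apply_symm_apply y
      rw [this]
      exact hasFDerivAt_id y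
    have g3 := g1.unique g2
    exact congrArg (fun T : E n × E n →L[ℝ] E n × E n => T a) g3
  refine ⟨ψ.trans Φ.symm, ⟨?_, ?_⟩, ?_, ?_, ?_⟩
  · exact h1.2.comp p1.1
  · exact p1.2.comp h1.1
  · intro z a b
    have g1 : HasFDerivAt (fun z => Φ.symm (ψ z)) ((fderiv ℝ Φ.symm (ψ z)).comp
        (fderiv ℝ ψ z)) z := (hd' (ψ z)).comp z (hψ z)
    have g2 : fderiv ℝ (ψ.trans Φ.symm) z = (fderiv ℝ Φ.symm (ψ z)).comp (fderiv ℝ ψ z) := g1.fderiv
    rw [g2]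
    show om (fderiv ℝ Φ.symm (ψ z) (fderiv ℝ ψ z a)) (fderiv ℝ Φ.symm (ψ z) (fderiv ℝ ψ z b)) = _
    have g3 := h2 (Φ.symm (ψ z)) (fderiv ℝ Φ.symm (ψ z) (fderiv ℝ ψ z a))
      (fderiv ℝ Φ.symm (ψ z) (fderiv ℝ ψ z b))
    rw [hinv, hinv] at g3
    rw [← g3, p2]
  · intro z k
    show Φ.symm (ψ (z.1 + latt k, z.2)) = ((Φ.symm (ψ z)).1 + latt k, (Φ.symm (ψ z)).2)
    rw [p3 z k]
    apply Φ.injective
    rw [Φ.apply_symm_apply, h3, Φ.apply_symm_apply]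
  · have : (ψ.trans Φ.symm : E n × E n → E n × E n) '' {z | z.2 = 0} =
        Φ.symm '' (ψ '' {z | z.2 = 0}) := by
      rw [image_image]
      rfl
    rw [this, p4, ← image_comp]
    have h5 : (Φ.symm ∘ Φ : E n × E n → E n × E n) = id := funext fun z => Φ.symm_apply_apply z
    rw [h5, image_id]

theorem part3 (hNV : S_NV) (hK : S_K) (hTW : S_TW) (hPR : S_PRIM) (hPU : S_PUSH)
    {Λ : Set (E n × E n)} (hΛ : IsLagrangianLift n Λ) {f : E n × E n → ℝ}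
    (hf : IsPrimitive Λ f) {B : E n → E n →L[ℝ] E n} (hB : IsSymmetricField B)
    (hS : HasSigns Λ B) : IsImage Λ := by
  obtain ⟨K, k₁, k₂, M, C, hG, hC, h1⟩ := hK n Λ B hΛ hB hS
  obtain ⟨t, Φ, hΦ, h2⟩ := hTW n Λ K k₁ k₂ M C hΛ hG hC h1
  obtain ⟨hΛ', h3⟩ := hPU n Λ K k₁ k₂ M t Φ hΛ hG hΦ
  obtain ⟨f', hf'⟩ := hPR n Λ K k₁ k₂ M t Φ f hG hΦ hf
  have h4 : ∀ y (a : E n), IsTangent (Φ '' Λ) y (0, a) → a = 0 := by
    intro y a ha
    obtain ⟨z, hz, b, -, hb, hb'⟩ := h3 y _ ha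
    have h5 := h2 z hz b hb (by rw [hb'])
    rw [h5, map_zero] at hb'
    exact (congrArg Prod.snd hb').symm
  refine isImage_pull ⟨hΦ.c1, hΦ.c2⟩ hΦ.sym hΦ.per (part2 hΛ' hf' (fun z _ => Or.inl ?_) ?_)
  · intro a b ha hb
    refine ⟨1, 0, Or.inl one_ne_zero, ?_⟩
    rw [h4 z a ha]
    simp
  · intro z hz
    refine (hNV n (Φ '' Λ) hΛ' z hz ?_).1
    rintro ⟨a, ha, ha'⟩
    exact ha (h4 z a ha')

end Pool.Agent.D0H39.NL
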