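import Pool.Agent.D0H39.NL.Conn

set_option autoImplicit false
set_option maxHeartbeats 400000

open Set Filter Topology Metric Function
open scoped ContDiff RealInnerProductSpace

noncomputable section

namespace Pool.Agent.D0H39.NL

variable {n : ℕ}

theorem t_UNIQ : S_UNIQ := by
  intro n Λ hinj s s' hs hs' q₀ hq₀
  have hclo : IsClosed {q | s q = s' q} := isClosed_eq hs.1 hs'.1
  have hop : IsOpen {q | s q = s' q} := by
    rw [Metric.isOpen_iff]
    intro q hq
    have hq' : s q = s' q := hq
    have hx : (q, s' q) ∈ Λ := hs'.2 q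
    obtain ⟨r, hr, h⟩ := hinj _ hx
    have hc1 : ContinuousAt (fun y : E n => ‖((y, s y) : E n × E n) - (q, s' q)‖) q :=
      ((continuous_id.prodMk hs.1).sub continuous_const).norm.continuousAt
    have hc2 : ContinuousAt (fun y : E n => ‖((y, s' y) : E n × E n) - (q, s' q)‖) q :=
      ((continuous_id.prodMk hs'.1).sub continuous_const).norm.continuousAt
    have h1 := hc1.tendsto
    have h2 := hc2.tendsto
    simp only [hq', sub_self, norm_zero] at h1 h2
    obtain ⟨δ, hδ, h3⟩ := Metric.eventually_nhds_iff_ball.1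
      ((h1.eventually (gt_mem_nhds hr)).and (h2.eventually (gt_mem_nhds hr)))
    refine ⟨δ, hδ, fun y hy => ?_⟩
    have h4 := h (y, s y) (hs.2 y) (y, s' y) (hs'.2 y) (h3 y hy).1 (h3 y hy).2 rfl
    exact congrArg Prod.snd h4
  have huniv : {q | s q = s' q} = univ :=
    IsClopen.eq_univ ⟨hclo, hop⟩ ⟨q₀, hq₀⟩
  funext q
  have : q ∈ {q | s q = s' q} := by
    rw [huniv]
    exact mem_univ q
  exact this

theorem t_FINN : S_FINN := by
  intro n Λ hΛ hinj s hs
  -- the fibre is finite
  obtain ⟨F, hF⟩ : ∃ F : Set (E n × E n), F = Λ ∩ {z | z.1 = 0} := ⟨_, rfl⟩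
  obtain ⟨R, hR⟩ := hΛ.bdd
  have hFc : IsCompact F := by
    rw [Metric.isCompact_iff_isClosed_bounded]
    constructor
    · rw [hF]
      exact hΛ.closed.inter (isClosed_eq continuous_fst continuous_const)
    · rw [isBounded_iff_forall_norm_le]
      refine ⟨max 0 R, fun z hz => ?_⟩
      rw [hF] at hz
      rw [Prod.norm_def]
      have h1 : z.1 = 0 := hz.2
      rw [h1, norm_zero]
      exact max_le_max le_rfl (hR z hz.1)
  have hFf : F.Finite := by
    refine hFc.finite ?_
    rw [isDiscrete_iff_forall_mem_exists_isOpen]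
    intro z hz
    have hzΛ : z ∈ Λ := by
      rw [hF] at hz
      exact hz.1
    obtain ⟨r, hr, h⟩ := hinj z hzΛ
    refine ⟨ball z r, isOpen_ball, ?_⟩
    ext w
    simp only [mem_inter_iff, mem_singleton_iff]
    constructor
    · rintro ⟨h1, h2⟩
      rw [hF] at h2 hz
      rw [mem_ball, dist_eq_norm] at h1
      refine h w h2.1 z hz.1 h1 (by rw [sub_self, norm_zero]; exact hr) ?_
      rw [show w.1 = 0 from h2.2, show z.1 = 0 from hz.2]
    · rintro rfl
      exact ⟨mem_ball_self hr, hz⟩
  have hmul : ∀ (d : ℕ) (k : Fin n → ℤ), (latt ((d : ℤ) • k) : E n) = (d : ℝ) • latt k := by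
    intro d k
    unfold latt
    ext i
    simp
  -- one period
  have hone : ∀ k : Fin n → ℤ, ∃ d : ℕ, 1 ≤ d ∧ d ≤ hFf.toFinset.card ∧
      ∀ q, s (q + (d : ℝ) • latt k) = s q := by
    intro k
    let g : ℕ → E n × E n := fun j => (0, s (0 - latt ((j : ℤ) • k)))
    have hg : ∀ j ∈ Finset.range (hFf.toFinset.card + 1), g j ∈ hFf.toFinset := by
      intro j _
      rw [Set.Finite.mem_toFinset, hF]
      exact ⟨(sheet_shift hΛ hs ((j : ℤ) • k)).2 0, rfl⟩
    obtain ⟨i, hi, j, hj, hij, hgij⟩ := Finset.exists_ne_map_eq_of_card_lt_of_maps_to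
      (by rw [Finset.card_range]; exact Nat.lt_succ_self _) hg
    have key : ∀ i j : ℕ, i < j → j ≤ hFf.toFinset.card → g i = g j →
        ∃ d : ℕ, 1 ≤ d ∧ d ≤ hFf.toFinset.card ∧ ∀ q, s (q + (d : ℝ) • latt k) = s q := by
      intro i j hij hj he
      have h1 : (fun q => s (q - latt ((i : ℤ) • k))) = fun q => s (q - latt ((j : ℤ) • k)) :=
        t_UNIQ n Λ hinj _ _ (sheet_shift hΛ hs _) (sheet_shift hΛ hs _) 0
          (congrArg Prod.snd he)
      refine ⟨j - i, by omega, by omega, fun q => ?_⟩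
      have h2 := congrFun h1 (q + latt ((j : ℤ) • k))
      simp only [add_sub_cancel_right] at h2
      rw [← h2]
      congr 1
      rw [hmul, hmul, Nat.cast_sub hij.le, sub_smul]
      abel
    simp only [Finset.mem_range] at hi hj
    rcases lt_or_gt_of_ne hij with h | h
    · exact key i j h (by omega) hgij
    · exact key j i h (by omega) hgij.symm
  refine ⟨(hFf.toFinset.card).factorial, Nat.factorial_pos _, fun k q => ?_⟩
  obtain ⟨d, hd1, hd2, hd3⟩ := hone k
  obtain ⟨m, hm⟩ := Nat.dvd_factorial hd1 hd2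
  have h1 : ∀ (m : ℕ) (q : E n), s (q + ((m * d : ℕ) : ℝ) • latt k) = s q := by
    intro m
    induction m with
    | zero => intro q; simp
    | succ m ih =>
      intro q
      have h2 : q + (((m + 1) * d : ℕ) : ℝ) • (latt k : E n) =
          q + ((m * d : ℕ) : ℝ) • latt k + (d : ℝ) • latt k := by
        rw [add_assoc, ← add_smul]
        congr 2
        push_cast
        ring
      rw [h2, hd3, ih]
  rw [hm, mul_comm d m]
  exact h1 m q

end Pool.Agent.D0H39.NL
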