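import Pool.Agent.D0H39.NL.Chart
import Pool.Agent.D0H39.NL.Uniq
import Pool.Agent.D0H98.NL.Tan
import Mathlib.Topology.Covering.Basic
import Mathlib.Topology.Homotopy.Lifting

set_option autoImplicit false
set_option maxHeartbeats 400000

open Set Filter Topology Metric Function
open scoped ContDiff RealInnerProductSpace

noncomputable section

namespace Pool.Agent.D0H39.NL

variable {n : ℕ}

/-- near a point which is not vertical, `Λ` is the graph of a smooth function with symmetric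
derivative -/
theorem graph_near {Λ : Set (E n × E n)} (hΛ : IsLagrangianLift n Λ) {z : E n × E n} (hz : z ∈ Λ)
    (hv : ¬ IsVertical Λ z) : ∃ (η : E n → E n) (ρ r : ℝ), 0 < ρ ∧ 0 < r ∧
      ContDiffOn ℝ ∞ η (ball z.1 ρ) ∧ η z.1 = z.2 ∧ (∀ x ∈ ball z.1 ρ, (x, η x) ∈ Λ) ∧
      (∀ w ∈ Λ, ‖w - z‖ < r → w.1 ∈ ball z.1 ρ ∧ η w.1 = w.2) ∧
      ∀ x ∈ ball z.1 ρ, ∀ u v, ⟪fderiv ℝ η x u, v⟫ = ⟪u, fderiv ℝ η x v⟫ := by
  obtain ⟨P, η, ρ, r, h⟩ := t_CHART n Λ hΛ z hz
  have hP0 : ∀ x, P x = 0 := by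
    intro x
    have hk : P (P x) = P x := h.proj.1 x
    by_contra hne
    refine hv ⟨P x, hne, ?_⟩
    refine (D0H98.NL.t_TAN n Λ z P η ρ r h z hz (by rw [sub_self, norm_zero]; exact h.hr) _).2 ?_
    have h1 : chi P ((0 : E n), P x) = P x := by simp [chi, hk]
    rw [h1, h.vert _ hk]
    simp [mk, hk]
  have hchi : ∀ w : E n × E n, chi P w = w.1 := fun w => by simp [chi, hP0]
  have hmk : ∀ x y : E n, mk P x y = (x, y) := fun x y => by simp [mk, hP0]
  refine ⟨η, ρ, r, h.hρ, h.hr, ?_, ?_, ?_, ?_, ?_⟩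
  · have := h.smooth
    rwa [hchi] at this
  · have := h.base
    rw [hmk, hchi] at this
    exact congrArg Prod.snd this
  · intro x hx
    have := h.mem x (by rw [hchi]; exact hx)
    rwa [hmk] at this
  · intro w hw hwz
    have := h.cover w hw hwz
    rw [hchi, hchi, hmk] at this
    exact ⟨this.1, congrArg Prod.snd this.2⟩
  · intro x hx
    exact h.symm x (by rw [hchi]; exact hx)

theorem t_SHEET (hNV : S_NV) : S_SHEET := by
  intro n Λ hΛ hv z hz
  let f : Λ → E n := fun w => (w : E n × E n).1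
  have hfc : Continuous f := continuous_fst.comp continuous_subtype_val
  have hopen : IsOpenMap f := by
    rw [isOpenMap_iff_nhds_le]
    intro w N hN
    obtain ⟨η, ρ, r, hρ, hr, h1, h2, h3, h4, -⟩ := graph_near hΛ w.2 (hv _ w.2)
    rw [mem_map] at hN
    obtain ⟨U, hU, hUN⟩ := mem_nhds_subtype Λ w (f ⁻¹' N) |>.1 hN
    have hc : ContinuousAt (fun q : E n => ((q, η q) : E n × E n)) (w : E n × E n).1 :=
      continuousAt_id.prodMk (h1.contDiffAt (ball_mem_nhds _ hρ)).continuousAt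
    have hU' : U ∈ 𝓝 (((w : E n × E n).1, η (w : E n × E n).1) : E n × E n) := by
      rw [h2]
      exact hU
    filter_upwards [hc.preimage_mem_nhds hU', ball_mem_nhds (w : E n × E n).1 hρ] with q hq1 hq2
    exact hUN (show (⟨(q, η q), h3 q hq2⟩ : Λ) ∈ Subtype.val ⁻¹' U from hq1)
  have hloc : IsLocalHomeomorph f := by
    rw [isLocalHomeomorph_iff_isOpenEmbedding_restrict]
    intro w
    obtain ⟨r, hr, h1⟩ := (hNV n Λ hΛ w w.2 (hv _ w.2)).1
    refine ⟨ball w r, ball_mem_nhds w hr, ?_⟩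
    refine IsOpenEmbedding.of_continuous_injective_isOpenMap (hfc.comp continuous_subtype_val) ?_
      (hopen.domRestrict isOpen_ball)
    intro a b hab
    apply Subtype.ext
    apply Subtype.ext
    refine h1 _ a.1.2 _ b.1.2 ?_ ?_ hab
    · have := a.2
      rw [mem_ball, Subtype.dist_eq, dist_eq_norm] at this
      exact this
    · have := b.2
      rw [mem_ball, Subtype.dist_eq, dist_eq_norm] at this
      exact this
  obtain ⟨R, hR⟩ := hΛ.bdd
  have hproper : IsProperMap f := by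
    rw [isProperMap_iff_isCompact_preimage]
    refine ⟨hfc, fun K hK => ?_⟩
    rw [Subtype.isCompact_iff]
    have h1 : Subtype.val '' (f ⁻¹' K) = Λ ∩ (K ×ˢ closedBall (0 : E n) R) := by
      ext w
      constructor
      · rintro ⟨a, ha, rfl⟩
        refine ⟨a.2, ha, ?_⟩
        rw [mem_closedBall_zero_iff]
        exact hR _ a.2
      · rintro ⟨h1, h2, -⟩
        exact ⟨⟨w, h1⟩, h2, rfl⟩
    rw [h1]
    exact (hK.prod (isCompact_closedBall _ _)).inter_left hΛ.closed
  have hcov : IsCoveringMap f := by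
    rw [isCoveringMap_iff_isCoveringMapOn_univ]
    refine IsClosedMap.isCoveringMapOn_of_isLocalHomeomorphOn hproper.isClosedMap (fun q _ => ?_) ?_
    · have hcomp : IsCompact (f ⁻¹' {q}) := hproper.isCompact_preimage isCompact_singleton
      refine hcomp.finite (.of_openPartialHomeomorph f subset_rfl fun e _ => ?_)
      obtain ⟨φ, hφ, h⟩ := hloc e
      exact ⟨φ, hφ, h.symm⟩
    · rw [preimage_univ, ← isLocalHomeomorph_iff_isLocalHomeomorphOn_univ]
      exact hloc
  obtain ⟨F, ⟨hF1, hF2⟩, -⟩ := hcov.existsUnique_continuousMap_lifts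
    (ContinuousMap.id (E n)) z.1 ⟨z, hz⟩ rfl
  have hF3 : ∀ q, (F q : E n × E n).1 = q := fun q => congrFun hF2 q
  refine ⟨fun q => (F q : E n × E n).2, ⟨?_, fun q => ?_⟩, ?_⟩
  · exact continuous_snd.comp (continuous_subtype_val.comp F.continuous)
  · have : ((q, (F q : E n × E n).2) : E n × E n) = F q := Prod.ext (hF3 q).symm rfl
    show ((q, (F q : E n × E n).2) : E n × E n) ∈ Λ
    rw [this]
    exact (F q).2
  · show (F z.1 : E n × E n).2 = z.2
    rw [hF1]

end Pool.Agent.D0H39.NL
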