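import Pool.Agent.D0H39.NL.Lis
import Pool.Agent.D0H39.NL.Main2
import Pool.Agent.D0H39.NL.Sheet
import Pool.Agent.D0H22.NL.Pot
import Pool.Agent.D0H98.NL.Tw
import Pool.Agent.D0H98.NL.Push
import Pool.Agent.D0H9.NL.GenK

/-! # Lagrangian submanifolds of the cotangent bundle of the torus without folds -/

set_option autoImplicit false
set_option maxHeartbeats 400000

open Set Filter Topology Metric Function
open scoped ContDiff RealInnerProductSpace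

noncomputable section

namespace Pool.Agent.D0H39.NL

variable {n : ℕ}

theorem nv : S_NV := D0H98.NL.t_NV t_CHART

theorem genK : S_K := D0H9.NL.t_K (D0H98.NL.t_ZCL t_CHART) nv D0H9.NL.t_SEP2

theorem conn : S_CONN :=
  t_CONN (t_SHEET nv) t_UNIQ (D0H22.NL.t_POT t_CHART) t_FINN nv

theorem signs_connected {Λ : Set (E n × E n)} (hΛ : IsLagrangianLift n Λ)
    (hc : IsConnectedLift Λ) {B : E n → E n →L[ℝ] E n} (hB : IsSymmetricField B)
    (hS : HasSigns Λ B) : IsImage Λ := by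
  obtain ⟨K, k₁, k₂, M, C, hG, hC, h1⟩ := genK n Λ B hΛ hB hS
  obtain ⟨t, Φ, hΦ, h2⟩ := D0H98.NL.t_TW n Λ K k₁ k₂ M C hΛ hG hC h1
  obtain ⟨hΛ', h3⟩ := D0H98.NL.t_PUSH n Λ K k₁ k₂ M t Φ hΛ hG hΦ
  have h4 : ∀ y (a : E n), IsTangent (Φ '' Λ) y (0, a) → a = 0 := by
    intro y a ha
    obtain ⟨z, hz, b, -, hb, hb'⟩ := h3 y _ ha
    have h5 := h2 z hz b hb (by rw [hb'])
    rw [h5, map_zero] at hb'
    exact (congrArg Prod.snd hb').symm
  have h5 : ∀ z ∈ Φ '' Λ, ¬ IsVertical (Φ '' Λ) z := by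
    rintro z - ⟨a, ha, ha'⟩
    exact ha (h4 z a ha')
  have hc' : IsConnectedLift (Φ '' Λ) := t_PUSHC n Λ K k₁ k₂ t Φ hΦ hc
  refine isImage_pull ⟨hΦ.c1, hΦ.c2⟩ hΦ.sym hΦ.per (part1 hΛ' (fun z _ => Or.inl ?_)
    (conn n _ hΛ' h5 hc'))
  intro a b ha hb
  refine ⟨1, 0, Or.inl one_ne_zero, ?_⟩
  rw [h4 z a ha]
  simp

theorem signs_image {Λ : Set (E n × E n)} (hΛ : IsLagrangianLift n Λ)
    (hc : IsConnectedLift Λ ∨ ∃ f, IsPrimitive Λ f) {B : E n → E n →L[ℝ] E n}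
    (hB : IsSymmetricField B) (hS : HasSigns Λ B) : IsImage Λ := by
  rcases hc with hc | ⟨f, hf⟩
  · exact signs_connected hΛ hc hB hS
  · exact part3 nv genK D0H98.NL.t_TW D0H98.NL.t_PRIM D0H98.NL.t_PUSH hΛ hf hB hS

end Pool.Agent.D0H39.NL
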