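import Pool.Agent.D0H39.NL.Stm
import Mathlib.Analysis.Calculus.Gradient.Basic

set_option autoImplicit false

noncomputable section

namespace Pool.Agent.D0H39.NL

variable {n : ℕ}

/-- the shear `(q, p) ↦ (q + ∇k(p), p)` of the cotangent bundle of the torus -/
def shear (k : E n → ℝ) (z : E n × E n) : E n × E n := (z.1 + gradient k z.2, z.2)

end Pool.Agent.D0H39.NL
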