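import Pool.Agent.D0H39.NL.Main3
import Pool.Agent.D0H39.NL.Stm4

/-! # Sheared Lagrangian submanifolds -/

set_option autoImplicit false
set_option maxHeartbeats 400000

open Set Filter Topology Metric Function
open scoped ContDiff RealInnerProductSpace NNReal

noncomputable section

namespace Pool.Agent.D0H39.NL

variable {n : ℕ}

theorem grad_inner (k : E n → ℝ) (p b : E n) : ⟪gradient k p, b⟫ = fderiv ℝ k p b := by
  simp [gradient]

/-- the vector of a linear form -/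
def vec (L : E n →L[ℝ] ℝ) : E n := WithLp.toLp 2 (fun i => L (EuclideanSpace.single i 1))

theorem vec_inner (L : E n →L[ℝ] ℝ) (v : E n) : ⟪vec L, v⟫ = L v := by
  have h1 : v = ∑ i, v i • EuclideanSpace.single i (1 : ℝ) := by
    ext j
    simp [Pi.single_apply]
  rw [PiLp.inner_apply]
  conv_rhs => rw [h1, map_sum]
  refine Finset.sum_congr rfl fun i _ => ?_
  rw [map_smul]
  simp [vec]

theorem grad_smooth {k : E n → ℝ} (hk : ContDiff ℝ ∞ k) : ContDiff ℝ ∞ (gradient k) := by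
  have h1 : gradient k = fun p => vec (fderiv ℝ k p) := by
    funext p
    refine ext_inner_right ℝ fun b => ?_
    rw [grad_inner, vec_inner]
  rw [h1]
  have h2 : ContDiff ℝ ∞ (fderiv ℝ k) := hk.fderiv_right (by simp)
  rw [contDiff_euclidean]
  intro i
  show ContDiff ℝ ∞ fun p => fderiv ℝ k p (EuclideanSpace.single i 1)
  exact h2.clm_apply contDiff_const

theorem grad_deriv {k : E n → ℝ} (hk : ContDiff ℝ ∞ k) (p a b : E n) :
    ⟪fderiv ℝ (gradient k) p a, b⟫ = fderiv ℝ (fderiv ℝ k) p a b := by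
  have h1 : HasFDerivAt (gradient k) (fderiv ℝ (gradient k) p) p :=
    ((grad_smooth hk).differentiable (by simp) p).hasFDerivAt
  have h2 := (h1.inner ℝ (hasFDerivAt_const b p)).fderiv
  have h3 : (fun p => (⟪gradient k p, b⟫ : ℝ)) = fun p => fderiv ℝ k p b :=
    funext fun p => grad_inner k p b
  rw [h3] at h2
  have h4 : HasFDerivAt (fderiv ℝ k) (fderiv ℝ (fderiv ℝ k) p) p := by
    have : ContDiff ℝ ∞ (fderiv ℝ k) := hk.fderiv_right (by simp)
    exact (this.differentiable (by simp) p).hasFDerivAt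
  have h5 := (h4.clm_apply (hasFDerivAt_const b p)).fderiv
  rw [h5] at h2
  have h6 := congrArg (fun T : E n →L[ℝ] ℝ => T a) h2
  simpa using h6.symm

theorem grad_symm {k : E n → ℝ} (hk : ContDiff ℝ ∞ k) (p a b : E n) :
    ⟪fderiv ℝ (gradient k) p a, b⟫ = ⟪fderiv ℝ (gradient k) p b, a⟫ := by
  have hsym : IsSymmSndFDerivAt ℝ k p :=
    ContDiffAt.isSymmSndFDerivAt hk.contDiffAt (by
      rw [minSmoothness_of_isRCLikeNormedField]
      exact ENat.LEInfty.out)
  rw [grad_deriv hk, grad_deriv hk, hsym a b]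

/-- the shear as a bijection -/
def shearE (k : E n → ℝ) : E n × E n ≃ E n × E n where
  toFun := shear k
  invFun z := (z.1 - gradient k z.2, z.2)
  left_inv z := by simp [shear]
  right_inv z := by simp [shear]

theorem hasFDerivAt_shear {k : E n → ℝ} (hk : ContDiff ℝ ∞ k) (z a : E n × E n) :
    fderiv ℝ (shear k) z a = (a.1 + fderiv ℝ (gradient k) z.2 a.2, a.2) := by
  have h1 : HasFDerivAt (gradient k) (fderiv ℝ (gradient k) z.2) z.2 :=
    ((grad_smooth hk).differentiable (by simp) _).hasFDerivAt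
  have h2 : HasFDerivAt (shear k) (((ContinuousLinearMap.fst ℝ (E n) (E n)) +
      (fderiv ℝ (gradient k) z.2).comp (ContinuousLinearMap.snd ℝ (E n) (E n))).prod
        (ContinuousLinearMap.snd ℝ (E n) (E n))) z :=
    (hasFDerivAt_fst.add (h1.comp z hasFDerivAt_snd)).prodMk hasFDerivAt_snd
  rw [h2.fderiv]
  rfl

theorem shear_twist {k : E n → ℝ} (hk : ContDiff ℝ ∞ k) :
    IsTwist (fun w => k w.2) (fun _ => 0) (fun w => gradient k w.2) 1 (shearE k) where
  c1 := (contDiff_fst.add ((grad_smooth hk).comp contDiff_snd)).prodMk contDiff_snd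
  c2 := (contDiff_fst.sub ((grad_smooth hk).comp contDiff_snd)).prodMk contDiff_snd
  per z l := by
    show ((z.1 + latt l) + gradient k z.2, z.2) = ((z.1 + gradient k z.2) + latt l, z.2)
    rw [add_right_comm]
  sym z a b := by
    show om (fderiv ℝ (shear k) z a) (fderiv ℝ (shear k) z b) = om a b
    rw [hasFDerivAt_shear hk, hasFDerivAt_shear hk]
    simp only [om, inner_add_right]
    have h1 := grad_symm hk z.2 a.2 b.2
    rw [real_inner_comm b.2, real_inner_comm a.2] at h1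
    linarith
  gen z := by
    refine ⟨(z.1 + gradient k z.2, z.2), rfl, ?_, ?_⟩
    · simp
    · show (z.1 + gradient k z.2, z.2) = _
      simp

theorem shear_gen {k : E n → ℝ} (hk : ContDiff ℝ ∞ k) (hc : HasCompactSupport k) :
    ∃ M : ℝ, IsGen (fun w : E n × E n => k w.2) (fun _ => 0) (fun w => gradient k w.2) M := by
  have hG := grad_smooth hk
  have hGc : HasCompactSupport (gradient k) := by
    refine (hc.fderiv (𝕜 := ℝ)).mono fun p hp => ?_
    intro h
    apply hp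
    simp [gradient, h]
  obtain ⟨K, hK⟩ := ContDiff.lipschitzWith_of_hasCompactSupport hGc hG (by simp)
  obtain ⟨M, hM⟩ := hGc.exists_bound_of_continuous hG.continuous
  have hM0 : 0 ≤ M := (norm_nonneg _).trans (hM 0)
  refine ⟨K + M, ?_⟩
  have hK0 : (0 : ℝ) ≤ K := K.2
  refine ⟨by positivity, hk.comp contDiff_snd, fun _ _ => rfl, contDiff_const,
    hG.comp contDiff_snd, ?_, fun _ _ => rfl, fun _ _ => rfl, ?_, ?_, ?_, ?_⟩
  · intro w a
    have h1 : HasFDerivAt k (fderiv ℝ k w.2) w.2 := (hk.differentiable (by simp) _).hasFDerivAt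
    have h2 : HasFDerivAt (fun w : E n × E n => k w.2)
        ((fderiv ℝ k w.2).comp (ContinuousLinearMap.snd ℝ (E n) (E n))) w :=
      h1.comp w hasFDerivAt_snd
    rw [h2.fderiv, grad_inner]
    simp
  · intro w
    simp only [norm_zero]
    positivity
  · intro w
    linarith [hM w.2]
  · intro w w'
    simp only [sub_self, norm_zero]
    positivity
  · intro w w'
    have h1 := hK.dist_le_mul w.2 w'.2
    rw [dist_eq_norm, dist_eq_norm] at h1
    have h2 : ‖w.2 - w'.2‖ ≤ ‖w - w'‖ := by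
      rw [Prod.norm_def]
      exact le_max_right _ _
    calc ‖gradient k w.2 - gradient k w'.2‖ ≤ K * ‖w.2 - w'.2‖ := h1
      _ ≤ K * ‖w - w'‖ := mul_le_mul_of_nonneg_left h2 hK0
      _ ≤ (K + M) * ‖w - w'‖ := mul_le_mul_of_nonneg_right (by linarith) (norm_nonneg _)

/-- the sheared submanifold -/
theorem shear_lift {Λ : Set (E n × E n)} (hΛ : IsLagrangianLift n Λ) {k : E n → ℝ}
    (hk : ContDiff ℝ ∞ k) : IsLagrangianLift n (shear k '' Λ) ∧
      (IsConnectedLift Λ ∨ (∃ f, IsPrimitive Λ f) →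
        IsConnectedLift (shear k '' Λ) ∨ ∃ f, IsPrimitive (shear k '' Λ) f) ∧
      (IsImage (shear k '' Λ) → IsImage Λ) := by
  obtain ⟨R, hR⟩ := hΛ.bdd
  have hR0 : 0 ≤ R := by
    obtain ⟨z, hz⟩ := hΛ.nonempty
    exact (norm_nonneg _).trans (hR z hz)
  let χ : ContDiffBump (0 : E n) := ⟨R + 1, R + 2, by linarith, by linarith⟩
  set k' : E n → ℝ := fun p => χ p * k p with hk'
  have h1 : ContDiff ℝ ∞ k' := χ.contDiff.mul hk
  have h2 : HasCompactSupport k' := χ.hasCompactSupport.mul_right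
  have h3 : ∀ z ∈ Λ, shear k' z = shear k z := by
    intro z hz
    have h4 : k' =ᶠ[𝓝 z.2] k := by
      have h5 : ball (0 : E n) (R + 1) ∈ 𝓝 z.2 :=
        isOpen_ball.mem_nhds (by rw [mem_ball_zero_iff]; linarith [hR z hz])
      filter_upwards [h5] with p hp
      have h6 : χ p = 1 := χ.one_of_mem_closedBall (ball_subset_closedBall hp)
      simp [hk', h6]
    have h5 : gradient k' z.2 = gradient k z.2 := by
      simp only [gradient, h4.fderiv_eq]
    simp only [shear, h5]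
  have h4 : shearE k' '' Λ = shear k '' Λ := image_congr h3
  obtain ⟨M, hM⟩ := shear_gen h1 h2
  have hT := shear_twist h1
  obtain ⟨hΛ', -⟩ := D0H98.NL.t_PUSH n Λ _ _ _ M 1 _ hΛ hM hT
  rw [← h4]
  refine ⟨hΛ', fun hc => ?_, fun h => isImage_pull ⟨hT.c1, hT.c2⟩ hT.sym hT.per h⟩
  rcases hc with hc | ⟨f, hf⟩
  · exact Or.inl (t_PUSHC n Λ _ _ _ 1 _ hT hc)
  · exact Or.inr (D0H98.NL.t_PRIM n Λ _ _ _ M 1 _ f hM hT hf)

/-- tangent vectors of the sheared submanifold -/
theorem shear_tangent {Λ : Set (E n × E n)} {k : E n → ℝ} (hk : ContDiff ℝ ∞ k)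
    {y b : E n × E n} (h : IsTangent (shear k '' Λ) y b) : ∃ z ∈ Λ, shear k z = y ∧
      IsTangent Λ z (b.1 - fderiv ℝ (gradient k) z.2 b.2, b.2) := by
  obtain ⟨c, h1, h2, h3, h4⟩ := h
  subst h3
  have hc : HasDerivAt c b 0 := by
    rw [← h4]
    exact (h1.differentiableAt (by simp)).hasDerivAt
  have hc1 : HasDerivAt (fun t => (c t).1) b.1 0 := hc.fst
  have hc2 : HasDerivAt (fun t => (c t).2) b.2 0 := hc.snd
  have hG : HasDerivAt (fun t => gradient k (c t).2) (fderiv ℝ (gradient k) (c 0).2 b.2) 0 :=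
    (((grad_smooth hk).differentiable (by simp) _).hasFDerivAt).comp_hasDerivAt (0 : ℝ) hc2
  have hinv : ∀ w : E n × E n, w ∈ shear k '' Λ → (w.1 - gradient k w.2, w.2) ∈ Λ := by
    rintro _ ⟨z, hz, rfl⟩
    simpa [shear] using hz
  refine ⟨((c 0).1 - gradient k (c 0).2, (c 0).2), hinv _ h2.self_of_nhds, by simp [shear],
    fun t => ((c t).1 - gradient k (c t).2, (c t).2), ?_, ?_, rfl, ?_⟩
  · have g1 : ContDiffAt ℝ ∞ (fun t => (c t).1) 0 := contDiff_fst.contDiffAt.comp (0 : ℝ) h1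
    have g2 : ContDiffAt ℝ ∞ (fun t => (c t).2) 0 := contDiff_snd.contDiffAt.comp (0 : ℝ) h1
    have g3 : ContDiffAt ℝ ∞ (fun t => gradient k (c t).2) 0 :=
      (grad_smooth hk).contDiffAt.comp (0 : ℝ) g2
    exact (g1.sub g3).prodMk g2
  · exact h2.mono fun t ht => hinv _ ht
  · exact ((hc1.sub hG).prodMk hc2).deriv

/-- a submanifold which is nowhere tangent to the planes `dq = -D²k(p) dp` -/
theorem shear_signs {Λ : Set (E n × E n)} {k : E n → ℝ} (hk : ContDiff ℝ ∞ k)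
    (h : ∀ z ∈ Λ, ∀ a, IsTangent Λ z a → a.1 = - fderiv ℝ (gradient k) z.2 a.2 → a = 0)
    (B : E n → E n →L[ℝ] E n) : HasSigns (shear k '' Λ) B := by
  refine ⟨fun _ => 1, fun _ _ => rfl, fun _ => Or.inl rfl, ?_⟩
  rintro y - ⟨a, ha, ha'⟩
  obtain ⟨z, hz, -, hz'⟩ := shear_tangent hk ha'
  have h1 := h z hz _ hz' (by simp)
  exact absurd (congrArg Prod.snd h1) ha

theorem folds_image {Λ : Set (E n × E n)} (hΛ : IsLagrangianLift n Λ) {k : E n → ℝ}
    (hk : ContDiff ℝ ∞ k) (hc : IsConnectedLift Λ ∨ ∃ f, IsPrimitive Λ f)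
    (h : (∀ z ∈ Λ, ∀ a, IsTangent Λ z a → a.1 = - fderiv ℝ (gradient k) z.2 a.2 → a = 0) ∨
      (∃ B, IsSymmetricField B ∧ HasSigns (shear k '' Λ) B) ∨
      ((∀ z ∈ shear k '' Λ, IsSimpleAt (shear k '' Λ) z ∨ IsSemidefiniteAt (shear k '' Λ) z) ∧
        ∀ z ∈ shear k '' Λ, IsInjectiveAt (shear k '' Λ) z)) : IsImage Λ := by
  obtain ⟨h1, h2, h3⟩ := shear_lift hΛ hk
  have hid : IsSymmetricField (fun _ : E n => ContinuousLinearMap.id ℝ (E n)) :=
    ⟨contDiff_const, fun _ _ => rfl, fun _ _ _ => rfl⟩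
  rcases h with h | ⟨B, hB, hS⟩ | ⟨h4, h5⟩
  · exact h3 (signs_image h1 (h2 hc) hid (shear_signs hk h _))
  · exact h3 (signs_image h1 (h2 hc) hB hS)
  · exact h3 (signs_image h1 (h2 hc) hid (t_LIS n _ h1 h4 h5))

theorem folds_part {Λ : Set (E n × E n)} (hΛ : IsLagrangianLift n Λ) {k : E n → ℝ}
    (hk : ContDiff ℝ ∞ k)
    (h1 : ∀ z ∈ shear k '' Λ, IsSimpleAt (shear k '' Λ) z ∨ IsSemidefiniteAt (shear k '' Λ) z)
    (h2 : ∀ z ∈ shear k '' Λ, ∀ w ∈ shear k '' Λ, z.1 = w.1 → z = w) : IsImage Λ := by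
  obtain ⟨h3, -, h4⟩ := shear_lift hΛ hk
  exact h4 (part1 h3 h1 h2)

end Pool.Agent.D0H39.NL
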