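import Mathlib

/-!
# Closed Lagrangian submanifolds of the cotangent bundle of the torus without folds: statements
-/

set_option autoImplicit false

open Set Filter Topology Metric Function
open scoped ContDiff RealInnerProductSpace

noncomputable section

namespace Pool.Agent.D0H39.NL

abbrev E (n : ℕ) := EuclideanSpace ℝ (Fin n)

variable {n : ℕ}

/-- the integer vector `k` -/
def latt (k : Fin n → ℤ) : E n := WithLp.toLp 2 (fun i => (k i : ℝ))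

/-- the symplectic form `dp ∧ dq` of `ℝⁿ × ℝⁿ`; the points and the vectors are pairs `(q, p)` -/
def om (a b : E n × E n) : ℝ := ⟪a.2, b.1⟫ - ⟪b.2, a.1⟫

/-- `F : ℝⁿ → ℝⁿ × ℝⁿ` is an injective smooth immersion -/
def IsInjImmersion (F : E n → E n × E n) : Prop :=
  ContDiff ℝ ∞ F ∧ Injective F ∧ ∀ s v, fderiv ℝ F s v = 0 → v = 0

/-- `F` pulls back `dp ∧ dq` to zero -/
def IsIsotropic (F : E n → E n × E n) : Prop :=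
  ∀ s v w, om (fderiv ℝ F s v) (fderiv ℝ F s w) = 0

/-- `Λ ⊆ ℝⁿ × ℝⁿ` is the preimage of a nonempty compact Lagrangian submanifold without boundary of
the cotangent bundle `ℝⁿ/ℤⁿ × ℝⁿ` of the torus: it is closed, invariant under the translations
`(q, p) ↦ (q + k, p)`, bounded in `p`, and every point `z` of `Λ` is `F 0` for an injective smooth
immersion `F : ℝⁿ → ℝⁿ × ℝⁿ` which is open as a map to `Λ` and pulls back `dp ∧ dq` to zero. -/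
structure IsLagrangianLift (n : ℕ) (Λ : Set (E n × E n)) : Prop where
  closed : IsClosed Λ
  nonempty : Λ.Nonempty
  per : ∀ z ∈ Λ, ∀ k : Fin n → ℤ, (z.1 + latt k, z.2) ∈ Λ
  bdd : ∃ R : ℝ, ∀ z ∈ Λ, ‖z.2‖ ≤ R
  par : ∀ z ∈ Λ, ∃ F : E n → E n × E n,
    F 0 = z ∧ IsInjImmersion F ∧ IsIsotropic F ∧
    ∀ V : Set (E n), IsOpen V → ∃ U, IsOpen U ∧ F '' V = Λ ∩ U

/-- `a` is a tangent vector of `Λ` at `z`: the velocity of a smooth curve in `Λ` -/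
def IsTangent (Λ : Set (E n × E n)) (z a : E n × E n) : Prop :=
  ∃ c : ℝ → E n × E n, ContDiffAt ℝ ∞ c 0 ∧ (∀ᶠ t in 𝓝 (0 : ℝ), c t ∈ Λ) ∧ c 0 = z ∧
    deriv c 0 = a

/-- the vertical tangent vectors of `Λ` at `z` form a space of dimension at most one -/
def IsSimpleAt (Λ : Set (E n × E n)) (z : E n × E n) : Prop :=
  ∀ a b : E n, IsTangent Λ z (0, a) → IsTangent Λ z (0, b) →
    ∃ s t : ℝ, (s ≠ 0 ∨ t ≠ 0) ∧ s • a + t • b = 0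

/-- near `z` the quadratic form `⟪dq, dp⟫` on the tangent spaces of `Λ` is, up to a sign and up to a
multiple of `‖dq‖²`, nonnegative -/
def IsSemidefiniteAt (Λ : Set (E n × E n)) (z : E n × E n) : Prop :=
  ∃ ε : ℝ, (ε = 1 ∨ ε = -1) ∧ ∃ C r : ℝ, 0 < r ∧ ∀ w ∈ Λ, ‖w - z‖ < r → ∀ a, IsTangent Λ w a →
    -C * ‖a.1‖ ^ 2 ≤ ε * ⟪a.1, a.2⟫

/-- some neighbourhood of `z` in `Λ` meets every fibre in at most one point -/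
def IsInjectiveAt (Λ : Set (E n × E n)) (z : E n × E n) : Prop :=
  ∃ r : ℝ, 0 < r ∧ ∀ w ∈ Λ, ∀ w' ∈ Λ, ‖w - z‖ < r → ‖w' - z‖ < r → w.1 = w'.1 → w = w'

/-- `f` is a function on the compact Lagrangian submanifold with `df = p dq` -/
def IsPrimitive (Λ : Set (E n × E n)) (f : E n × E n → ℝ) : Prop :=
  (∀ z ∈ Λ, ∀ k : Fin n → ℤ, f (z.1 + latt k, z.2) = f z) ∧
  ∀ (c : ℝ → E n × E n) (s : ℝ), ContDiffAt ℝ ∞ c s → (∀ᶠ t in 𝓝 s, c t ∈ Λ) →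
    HasDerivAt (fun t => f (c t)) ⟪(c s).2, (deriv c s).1⟫ s

/-! ## Charts: `Λ` is near `z` a graph over the coordinates `(1 - P) q + P p` -/

/-- orthogonal projections -/
def IsProj (P : E n →L[ℝ] E n) : Prop := (∀ x, P (P x) = P x) ∧ ∀ x y, ⟪P x, y⟫ = ⟪x, P y⟫

/-- the coordinates -/
def chi (P : E n →L[ℝ] E n) (w : E n × E n) : E n := w.1 - P w.1 + P w.2

/-- the complementary coordinates -/
def zeta (P : E n →L[ℝ] E n) (w : E n × E n) : E n := w.2 - P w.2 - P w.1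

/-- the point with the coordinates `x` and the complementary coordinates `y` -/
def mk (P : E n →L[ℝ] E n) (x y : E n) : E n × E n := (x - P x - P y, P x + (y - P y))

/-- a chart of `Λ` at `z` -/
structure IsChart (Λ : Set (E n × E n)) (z : E n × E n) (P : E n →L[ℝ] E n) (η : E n → E n)
    (ρ r : ℝ) : Prop where
  proj : IsProj P
  hρ : 0 < ρ
  hr : 0 < r
  smooth : ContDiffOn ℝ ∞ η (ball (chi P z) ρ)
  base : mk P (chi P z) (η (chi P z)) = z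
  mem : ∀ x ∈ ball (chi P z) ρ, mk P x (η x) ∈ Λ
  cover : ∀ w ∈ Λ, ‖w - z‖ < r → chi P w ∈ ball (chi P z) ρ ∧ mk P (chi P w) (η (chi P w)) = w
  symm : ∀ x ∈ ball (chi P z) ρ, ∀ u v, ⟪fderiv ℝ η x u, v⟫ = ⟪u, fderiv ℝ η x v⟫
  vert : ∀ k, P k = k → fderiv ℝ η (chi P z) k = 0

/-- the sign `ε` of a chart, and a bound for the derivative -/
structure IsGood (Λ : Set (E n × E n)) (z : E n × E n) (P : E n →L[ℝ] E n) (η : E n → E n)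
    (ρ r ε M : ℝ) : Prop where
  chart : IsChart Λ z P η ρ r
  eps : ε = 1 ∨ ε = -1
  sign : ∀ x ∈ ball (chi P z) ρ, ∀ k, P k = k → 0 ≤ ε * -⟪k, fderiv ℝ η x k⟫
  bound : ∀ x ∈ ball (chi P z) ρ, ‖fderiv ℝ η x‖ ≤ M

/-- the one-sided condition for pairs of points near `z` -/
def OneSidedNear (Λ : Set (E n × E n)) (z : E n × E n) (ε : ℝ) : Prop :=
  ∃ C r : ℝ, 0 ≤ C ∧ 0 < r ∧ ∀ w ∈ Λ, ∀ w' ∈ Λ, ‖w - z‖ < r → ‖w' - z‖ < r →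
    -C * ‖w.1 - w'.1‖ ^ 2 ≤ ε * ⟪w.1 - w'.1, w.2 - w'.2⟫

/-- near `z` the momentum is a Lipschitz function of the position -/
def LipschitzNear (Λ : Set (E n × E n)) (z : E n × E n) : Prop :=
  ∃ C r : ℝ, 0 ≤ C ∧ 0 < r ∧ ∀ w ∈ Λ, ∀ w' ∈ Λ, ‖w - z‖ < r → ‖w' - z‖ < r →
    ‖w.2 - w'.2‖ ≤ C * ‖w.1 - w'.1‖

/-- **NL1** existence of charts -/
def S_CHART : Prop := ∀ (n : ℕ) (Λ : Set (E n × E n)), IsLagrangianLift n Λ → ∀ z ∈ Λ,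
  ∃ (P : E n →L[ℝ] E n) (η : E n → E n) (ρ r : ℝ), IsChart Λ z P η ρ r

/-- **NL2** charts can be made smaller -/
def S_SHRINK : Prop := ∀ (n : ℕ) (Λ : Set (E n × E n)) (z : E n × E n) (P : E n →L[ℝ] E n)
  (η : E n → E n) (ρ r : ℝ), IsChart Λ z P η ρ r → ∀ ρ' r' : ℝ, 0 < ρ' → 0 < r' →
  ∃ ρ₁ r₁ : ℝ, ρ₁ ≤ ρ' ∧ r₁ ≤ r' ∧ IsChart Λ z P η ρ₁ r₁ ∧
    ∀ x ∈ ball (chi P z) ρ₁, ‖mk P x (η x) - z‖ < r'

/-- **NL3** the sign of a chart at a point with at most one vertical direction -/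
def S_SIGN1 : Prop := ∀ (n : ℕ) (Λ : Set (E n × E n)) (z : E n × E n) (P : E n →L[ℝ] E n)
  (η : E n → E n) (ρ r : ℝ), IsChart Λ z P η ρ r → IsSimpleAt Λ z → IsInjectiveAt Λ z →
  ∃ ρ₁ r₁ ε M : ℝ, IsGood Λ z P η ρ₁ r₁ ε M

/-- **NL4** the sign of a chart at a semidefinite point -/
def S_SIGN2 : Prop := ∀ (n : ℕ) (Λ : Set (E n × E n)) (z : E n × E n) (P : E n →L[ℝ] E n)
  (η : E n → E n) (ρ r : ℝ), IsChart Λ z P η ρ r → IsSemidefiniteAt Λ z →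
  ∃ ρ₁ r₁ ε M : ℝ, IsGood Λ z P η ρ₁ r₁ ε M

/-- **NL5** the one-sided inequality near `z` -/
def S_PAIR : Prop := ∀ (n : ℕ) (Λ : Set (E n × E n)) (z : E n × E n) (P : E n →L[ℝ] E n)
  (η : E n → E n) (ρ r ε M : ℝ), IsGood Λ z P η ρ r ε M → OneSidedNear Λ z ε

/-- **NL6** two signs -/
def S_BOTH : Prop := ∀ (n : ℕ) (Λ : Set (E n × E n)) (z : E n × E n) (P : E n →L[ℝ] E n)
  (η : E n → E n) (ρ r : ℝ), IsChart Λ z P η ρ r → IsInjectiveAt Λ z → OneSidedNear Λ z 1 →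
  OneSidedNear Λ z (-1) → LipschitzNear Λ z

/-- **NL7** the primitive near `z` -/
def S_DIFF : Prop := ∀ (n : ℕ) (Λ : Set (E n × E n)) (z : E n × E n) (P : E n →L[ℝ] E n)
  (η : E n → E n) (ρ r ε M : ℝ) (f : E n × E n → ℝ), IsGood Λ z P η ρ r ε M → z ∈ Λ →
  IsPrimitive Λ f → ∃ C r₁ : ℝ, 0 < r₁ ∧ ∀ w ∈ Λ, ‖w - z‖ < r₁ →
    |f w - f z - ⟪z.2, w.1 - z.1⟫| ≤ C * ‖w - z‖ * ‖w.1 - z.1‖

/-- **NL8** the projection to the torus is open -/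
def S_OPEN : Prop := ∀ (n : ℕ) (Λ : Set (E n × E n)) (z : E n × E n) (P : E n →L[ℝ] E n)
  (η : E n → E n) (ρ r ε M : ℝ) (f : E n × E n → ℝ), IsGood Λ z P η ρ r ε M → z ∈ Λ →
  IsPrimitive Λ f → IsInjectiveAt Λ z → ∀ r₁ : ℝ, 0 < r₁ → ∃ δ : ℝ, 0 < δ ∧ ∀ q : E n,
    ‖q - z.1‖ < δ → ∃ w ∈ Λ, w.1 = q ∧ ‖w - z‖ < r₁

/-- **NL9** the maximum principle -/
def S_MAX : Prop := ∀ (n : ℕ) (Λ : Set (E n × E n)) (f : E n × E n → ℝ), IsLagrangianLift n Λ →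
  IsPrimitive Λ f →
  (∀ z ∈ Λ, ∃ C r₁ : ℝ, 0 < r₁ ∧ ∀ w ∈ Λ, ‖w - z‖ < r₁ →
    |f w - f z - ⟪z.2, w.1 - z.1⟫| ≤ C * ‖w - z‖ * ‖w.1 - z.1‖) →
  (∀ z ∈ Λ, ∀ r₁ : ℝ, 0 < r₁ → ∃ δ : ℝ, 0 < δ ∧ ∀ q : E n,
    ‖q - z.1‖ < δ → ∃ w ∈ Λ, w.1 = q ∧ ‖w - z‖ < r₁) →
  ∀ z ∈ Λ, ∀ w ∈ Λ, z.1 = w.1 → z = w

/-- **NL10** separation of two disjoint closed subsets of the torus -/
def S_SEP : Prop := ∀ (n : ℕ) (A B : Set (E n)), IsClosed A → IsClosed B → Disjoint A B →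
  (∀ q ∈ A, ∀ k : Fin n → ℤ, q + latt k ∈ A) → (∀ q ∈ B, ∀ k : Fin n → ℤ, q + latt k ∈ B) →
  ∃ e : E n → ℝ, ContDiff ℝ ∞ e ∧ (∀ q, ∀ k : Fin n → ℤ, e (q + latt k) = e q) ∧
    (∀ q, |e q| ≤ 1) ∧ ∃ δ : ℝ, 0 < δ ∧ (∀ q ∈ A, ∀ q', ‖q' - q‖ < δ → e q' = 1) ∧
    ∀ q ∈ B, ∀ q', ‖q' - q‖ < δ → e q' = -1

/-- **NL11** a field of symmetric matrices -/
def S_FIELD : Prop := ∀ (n : ℕ) (Λ : Set (E n × E n)), IsLagrangianLift n Λ →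
  (∀ z ∈ Λ, ∀ w ∈ Λ, z.1 = w.1 → z = w) →
  (∀ z ∈ Λ, OneSidedNear Λ z 1 ∨ OneSidedNear Λ z (-1)) →
  (∀ z ∈ Λ, OneSidedNear Λ z 1 → OneSidedNear Λ z (-1) → LipschitzNear Λ z) →
  ∃ e : E n → ℝ, ContDiff ℝ ∞ e ∧ (∀ q, ∀ k : Fin n → ℤ, e (q + latt k) = e q) ∧
    ∃ C δ : ℝ, 0 < δ ∧ ∀ z ∈ Λ, ∀ w ∈ Λ, ‖z.1 - w.1‖ < δ →
      -C * ‖z.1 - w.1‖ ^ 2 ≤ e z.1 * ⟪z.1 - w.1, z.2 - w.2⟫ ∧
      ‖z.2 - w.2‖ ≤ |e z.1| * ‖z.2 - w.2‖ + C * ‖z.1 - w.1‖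

end Pool.Agent.D0H39.NL
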