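import Pool.Agent.D0H39.NL.Stm2

/-!
# Connected Lagrangian submanifolds: statements
-/

set_option autoImplicit false

open Set Filter Topology Metric Function
open scoped ContDiff RealInnerProductSpace

noncomputable section

namespace Pool.Agent.D0H39.NL

variable {n : ℕ}

/-- The compact Lagrangian submanifold with the preimage `Λ` is connected: it is not the union of
two disjoint nonempty closed subsets (closed subsets of the torus times `ℝⁿ` are given by closed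
sets which are invariant under the translations). -/
def IsConnectedLift (Λ : Set (E n × E n)) : Prop :=
  ∀ A B : Set (E n × E n), IsClosed A → IsClosed B →
    (∀ z ∈ A, ∀ k : Fin n → ℤ, (z.1 + latt k, z.2) ∈ A) →
    (∀ z ∈ B, ∀ k : Fin n → ℤ, (z.1 + latt k, z.2) ∈ B) →
    A ∪ B = Λ → Disjoint A B → A = ∅ ∨ B = ∅

/-- a sheet of `Λ` over `ℝⁿ` -/
def IsSheet (Λ : Set (E n × E n)) (s : E n → E n) : Prop := Continuous s ∧ ∀ q, (q, s q) ∈ Λ

/-- **NL20** sheets exist -/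
def S_SHEET : Prop := ∀ (n : ℕ) (Λ : Set (E n × E n)), IsLagrangianLift n Λ →
  (∀ z ∈ Λ, ¬ IsVertical Λ z) → ∀ z ∈ Λ, ∃ s, IsSheet Λ s ∧ s z.1 = z.2

/-- **NL21** sheets are unique -/
def S_UNIQ : Prop := ∀ (n : ℕ) (Λ : Set (E n × E n)), (∀ z ∈ Λ, IsInjectiveAt Λ z) →
  ∀ s s', IsSheet Λ s → IsSheet Λ s' → ∀ q, s q = s' q → s = s'

/-- **NL22** the potential of a sheet -/
def S_POT : Prop := ∀ (n : ℕ) (Λ : Set (E n × E n)), IsLagrangianLift n Λ →
  (∀ z ∈ Λ, ¬ IsVertical Λ z) → ∀ s, IsSheet Λ s → ∃ u : E n → ℝ, ∀ q,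
    HasFDerivAt u (innerSL ℝ (s q)) q

/-- **NL23** sheets are periodic -/
def S_FINN : Prop := ∀ (n : ℕ) (Λ : Set (E n × E n)), IsLagrangianLift n Λ →
  (∀ z ∈ Λ, IsInjectiveAt Λ z) → ∀ s, IsSheet Λ s → ∃ N : ℕ, 1 ≤ N ∧
    ∀ (k : Fin n → ℤ) (q : E n), s (q + (N : ℝ) • latt k) = s q

/-- **NL24** connected submanifolds without vertical tangencies have one sheet -/
def S_CONN : Prop := ∀ (n : ℕ) (Λ : Set (E n × E n)), IsLagrangianLift n Λ →
  (∀ z ∈ Λ, ¬ IsVertical Λ z) → IsConnectedLift Λ → ∀ z ∈ Λ, ∀ w ∈ Λ, z.1 = w.1 → z = w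

/-- **NL25** the image is connected -/
def S_PUSHC : Prop := ∀ (n : ℕ) (Λ : Set (E n × E n)) (K : E n × E n → ℝ)
  (k₁ k₂ : E n × E n → E n) (t : ℝ) (Φ : E n × E n ≃ E n × E n),
  IsTwist K k₁ k₂ t Φ → IsConnectedLift Λ → IsConnectedLift (Φ '' Λ)

/-- **NL26** locally injective submanifolds have signs -/
def S_LIS : Prop := ∀ (n : ℕ) (Λ : Set (E n × E n)), IsLagrangianLift n Λ →
  (∀ z ∈ Λ, IsSimpleAt Λ z ∨ IsSemidefiniteAt Λ z) → (∀ z ∈ Λ, IsInjectiveAt Λ z) →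
  HasSigns Λ (fun _ => ContinuousLinearMap.id ℝ (E n))

end Pool.Agent.D0H39.NL
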